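import Pool.Agent.W80.EC.Grid

/-!
Almost all quadratic polynomials, simultaneously for all lengths.
-/

set_option autoImplicit false

namespace Pool.Agent.W80.EC

open Finset Polynomial Filter
open Pool.Agent.H442R2.EHI (evt_log_pow evt_log_ge)
open Pool.Agent.H300R2.BH
open Pool.Agent.H300R2.FB

/-- the quadratic polynomial -/
noncomputable def q2 (a b c : ℤ) : ℤ[X] := C a * X ^ 2 + C b * X + C c

lemma q2_eval (a b c k : ℤ) : (q2 a b c).eval k = a * k ^ 2 + b * k + c := by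
  unfold q2; simp

/-- the box of triples -/
noncomputable def Box (H : ℕ) : Finset (ℤ × ℤ × ℤ) :=
  Icc (1 : ℤ) H ×ˢ (Icc (-(H : ℤ)) H ×ˢ Icc (-(H : ℤ)) H)

lemma FP_eq (H : ℕ) (r : Fin (2 - 1) → ℤ) (a d : ℕ) :
    FP 2 H r a d = q2 d (r ⟨0, by norm_num⟩) ((a : ℤ) - H - 1) := by
  unfold FP FF Rr q2
  have h1 : ∑ i : Fin (2 - 1), C (r i) * X ^ ((i : ℕ) + 1) =
      C (r ⟨0, by norm_num⟩) * (X : ℤ[X]) ^ (0 + 1) := by
    have h2 : (univ : Finset (Fin (2 - 1))) = {⟨0, by norm_num⟩} := by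
      ext i
      simp only [mem_univ, mem_singleton, true_iff]
      apply Fin.ext
      have := i.2
      simp only [Nat.add_one_sub_one] at this ⊢
      omega
    rw [h2, sum_singleton]
  rw [h1, one_mul, add_zero, zero_add, pow_one]
  have h3 : (C ((a : ℤ) - H - 1) : ℤ[X]) = C (a : ℤ) + C (-(H : ℤ) - 1) := by
    rw [← C_add]
    congr 1
    ring
  rw [h3]
  ring

lemma box_sum (H : ℕ) (g : ℤ → ℤ → ℤ → ℝ) :
    ∑ r ∈ bx 2 (fun _ => H), ∑ a ∈ Ioc 0 (0 + (2 * H + 1)), ∑ d ∈ Ioc 0 H,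
      g d (r ⟨0, by norm_num⟩) ((a : ℤ) - H - 1) = ∑ t ∈ Box H, g t.1 t.2.1 t.2.2 := by
  have e1 : ∀ b : ℤ, ∑ a ∈ Ioc 0 (0 + (2 * H + 1)), ∑ d ∈ Ioc 0 H, g d b ((a : ℤ) - H - 1) =
      ∑ c ∈ Icc (-(H : ℤ)) H, ∑ a ∈ Icc (1 : ℤ) H, g a b c := by
    intro b
    refine sum_nbij' (fun a : ℕ => (a : ℤ) - H - 1) (fun c : ℤ => (c + H + 1).toNat) ?_ ?_ ?_ ?_ ?_
    · intro a ha
      rw [mem_Ioc] at ha
      rw [mem_Icc]
      omega
    · intro c hc
      rw [mem_Icc] at hc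
      rw [mem_Ioc]
      omega
    · intro a ha
      rw [mem_Ioc] at ha
      omega
    · intro c hc
      rw [mem_Icc] at hc
      omega
    · intro a ha
      refine sum_nbij' (fun d : ℕ => (d : ℤ)) (fun d : ℤ => d.toNat) ?_ ?_ ?_ ?_ ?_
      · intro d hd
        rw [mem_Ioc] at hd
        rw [mem_Icc]
        omega
      · intro d hd
        rw [mem_Icc] at hd
        rw [mem_Ioc]
        omega
      · intro d hd
        omega
      · intro d hd
        rw [mem_Icc] at hd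
        omega
      · intro d hd
        rfl
  have e2 : ∑ r ∈ bx 2 (fun _ => H), ∑ a ∈ Ioc 0 (0 + (2 * H + 1)), ∑ d ∈ Ioc 0 H,
      g d (r ⟨0, by norm_num⟩) ((a : ℤ) - H - 1) =
      ∑ b ∈ Icc (-(H : ℤ)) H, ∑ c ∈ Icc (-(H : ℤ)) H, ∑ a ∈ Icc (1 : ℤ) H, g a b c := by
    refine sum_nbij' (fun r => r ⟨0, by norm_num⟩) (fun b : ℤ => fun _ => b) ?_ ?_ ?_ ?_ ?_
    · intro r hr
      unfold bx at hr
      rw [Fintype.mem_piFinset] at hr
      exact hr _
    · intro b hb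
      unfold bx
      rw [Fintype.mem_piFinset]
      intro i
      exact hb
    · intro r hr
      funext i
      have : (⟨0, by norm_num⟩ : Fin (2 - 1)) = i := by
        apply Fin.ext
        have := i.2
        simp only [Nat.add_one_sub_one] at this ⊢
        omega
      rw [this]
    · intro b hb
      rfl
    · intro r hr
      exact e1 _
  rw [e2]
  unfold Box
  rw [sum_product]
  have e3 : ∀ a ∈ Icc (1 : ℤ) H, ∑ y ∈ Icc (-(H : ℤ)) H ×ˢ Icc (-(H : ℤ)) H, g a y.1 y.2 =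
      ∑ b ∈ Icc (-(H : ℤ)) H, ∑ c ∈ Icc (-(H : ℤ)) H, g a b c := by
    intro a _
    rw [sum_product]
  simp only
  rw [sum_congr rfl e3]
  symm
  rw [sum_comm]
  apply sum_congr rfl
  intro b _
  rw [sum_comm]

lemma bx_card (H : ℕ) : ((bx 2 (fun _ => H)).card : ℝ) = 2 * H + 1 := by
  unfold bx
  rw [Fintype.card_piFinset]
  simp only [Int.card_Icc]
  rw [prod_const, card_univ, Fintype.card_fin]
  have : ((H : ℤ) + 1 - -(H : ℤ)).toNat = 2 * H + 1 := by omega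
  rw [this]
  simp

open Classical in
/-- almost all quadratic polynomials, for all lengths -/
theorem almost (ε : ℝ) (hε : 0 < ε) (U m : ℕ) : ∃ E1 : ℕ, ∀ E : ℕ, E1 ≤ E → ∃ B H0 : ℕ,
    ∀ H : ℕ, H0 ≤ H → ∃ Bad : Finset (ℤ × ℤ × ℤ), (Bad.card : ℝ) ≤ (H : ℝ) ^ 3 / Real.log H ^ U ∧
      ∀ t ∈ Box H, t ∉ Bad → ∀ K : ℕ, (H : ℝ) ^ ε ≤ K → (K : ℝ) * Real.log H ^ B ≤ H →
        |pv (q2 t.1 t.2.1 t.2.2) K - SS ⌊Real.log H ^ E⌋₊ (q2 t.1 t.2.1 t.2.2) *
          lF (q2 t.1 t.2.1 t.2.2) K| ≤ K / Real.log H ^ m := by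
  set U' : ℕ := U + 2 * m + 10 with hU'
  obtain ⟨E1, hE1⟩ := mean_full 2 (by norm_num) (ε / 2) (by linarith) U'
  refine ⟨E1 + 1, fun E hE => ?_⟩
  obtain ⟨B, H0, hmean⟩ := hE1 E (by omega)
  obtain ⟨H2, hSS⟩ := SS_small (E - 1)
  rw [show E - 1 + 1 = E by omega] at hSS
  have hev : ∀ᶠ H : ℕ in atTop, H0 ≤ H ∧ H2 ≤ H ∧ 100 ≤ Real.log H ∧
      Real.log H ^ (m + 4) ≤ (H : ℝ) ^ (ε / 2) ∧ 1 ≤ H := by
    filter_upwards [eventually_ge_atTop H0, eventually_ge_atTop H2, evt_log_ge 100,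
      evt_log_pow (m + 4) (ε / 2) (by linarith), eventually_ge_atTop 1] with H h1 h2 h3 h4 h5
    exact ⟨h1, h2, h3, h4, h5⟩
  obtain ⟨H3, hH3⟩ := eventually_atTop.mp hev
  refine ⟨B + 1, H3, fun H hH => ?_⟩
  obtain ⟨hH0, hH2, hL100, hLε, hH1⟩ := hH3 H hH
  obtain ⟨hz3, hSSb⟩ := hSS H hH2
  set L := Real.log H with hL
  have hL0 : 0 < L := by linarith
  have hL1 : 1 ≤ L := by linarith
  have hHr : (1 : ℝ) ≤ H := by exact_mod_cast hH1
  have hHp : (0 : ℝ) < H := by linarith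
  set z := ⌊L ^ E⌋₊ with hz
  set N := ⌈L ^ (m + 3)⌉₊ with hN
  set S := Nat.log 2 H + 1 with hS
  have hNge : L ^ (m + 3) ≤ N := Nat.le_ceil _
  have hNlt : (N : ℝ) < L ^ (m + 3) + 1 := Nat.ceil_lt_add_one (by positivity)
  have hLm1 : 1 ≤ L ^ (m + 3) := one_le_pow₀ hL1
  have hN1 : 1 ≤ N := by
    have : (1 : ℝ) ≤ N := hLm1.trans hNge
    exact_mod_cast this
  have hS2 : H < 2 ^ S := Nat.lt_pow_succ_log_self (by norm_num) H
  have hSL : (S : ℝ) ≤ 2 * L + 1 := by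
    rw [hS]
    push_cast
    have h1 : (2 : ℝ) ^ (Nat.log 2 H) ≤ H := by
      exact_mod_cast Nat.pow_log_le_self 2 (by omega : H ≠ 0)
    have h2 : Real.log ((2 : ℝ) ^ (Nat.log 2 H)) ≤ L := Real.log_le_log (by positivity) h1
    rw [Real.log_pow] at h2
    have h3 := Real.log_two_gt_d9
    have h4 : (0 : ℝ) ≤ (Nat.log 2 H : ℝ) := Nat.cast_nonneg _
    nlinarith
  set G := (grid S N).filter (fun K : ℕ => (H : ℝ) ^ (ε / 2) ≤ K ∧ (K : ℝ) * L ^ B ≤ H) with hG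
  set Er : ℕ → ℤ × ℤ × ℤ → ℝ := fun K t => |pv (q2 t.1 t.2.1 t.2.2) K -
    SS z (q2 t.1 t.2.1 t.2.2) * lF (q2 t.1 t.2.1 t.2.2) K| with hEr
  set BK : ℕ → Finset (ℤ × ℤ × ℤ) := fun K => (Box H).filter
    (fun t => (K : ℝ) / L ^ (m + 2) < Er K t) with hBK
  refine ⟨G.biUnion BK, ?_, ?_⟩
  · -- cardinality
    have hone : ∀ K ∈ G, ((BK K).card : ℝ) ≤ 9 * (H : ℝ) ^ 3 * L ^ (m + 2) / L ^ U' := by
      intro K hK
      rw [hG, mem_filter] at hK
      obtain ⟨_, hK1, hK2⟩ := hK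
      have hK0 : (0 : ℝ) < K := lt_of_lt_of_le (Real.rpow_pos_of_pos hHp _) hK1
      have h1 := hmean H hH0 K hK1 hK2
      simp_rw [FP_eq] at h1
      rw [box_sum H (fun a b c => |pv (q2 a b c) K - SS z (q2 a b c) * lF (q2 a b c) K|), bx_card]
        at h1
      have h2 : ((BK K).card : ℝ) * (K / L ^ (m + 2)) ≤ ∑ t ∈ Box H, Er K t := by
        calc ((BK K).card : ℝ) * (K / L ^ (m + 2)) = ∑ t ∈ BK K, (K : ℝ) / L ^ (m + 2) := by
              rw [sum_const, nsmul_eq_mul]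
          _ ≤ ∑ t ∈ BK K, Er K t := by
              apply sum_le_sum
              intro t ht
              rw [hBK] at ht
              simp only [mem_filter] at ht
              exact ht.2.le
          _ ≤ ∑ t ∈ Box H, Er K t := by
              apply sum_le_sum_of_subset_of_nonneg (filter_subset _ _)
              intro t _ _
              exact abs_nonneg _
      have h3 : ((BK K).card : ℝ) * (K / L ^ (m + 2)) ≤
          (2 * (H : ℝ) + 1) * ((2 * H + 1 : ℕ) : ℝ) * H * K / L ^ U' := h2.trans h1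
      have h4 : (2 * (H : ℝ) + 1) * ((2 * H + 1 : ℕ) : ℝ) * H ≤ 9 * (H : ℝ) ^ 3 := by
        push_cast
        have : (2 * (H : ℝ) + 1) ≤ 3 * H := by linarith
        calc (2 * (H : ℝ) + 1) * (2 * (H : ℝ) + 1) * H ≤ (3 * H) * (3 * H) * H := by gcongr
          _ = _ := by ring
      rw [mul_div_assoc', div_le_div_iff₀ (by positivity) (by positivity)] at h3
      rw [le_div_iff₀ (by positivity)]
      have h5 : ((BK K).card : ℝ) * L ^ U' * K ≤ 9 * (H : ℝ) ^ 3 * L ^ (m + 2) * K := by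
        calc ((BK K).card : ℝ) * L ^ U' * K = ((BK K).card : ℝ) * K * L ^ U' := by ring
          _ ≤ (2 * (H : ℝ) + 1) * ((2 * H + 1 : ℕ) : ℝ) * H * K * L ^ (m + 2) := h3
          _ ≤ 9 * (H : ℝ) ^ 3 * K * L ^ (m + 2) := by gcongr
          _ = _ := by ring
      exact le_of_mul_le_mul_right h5 hK0
    have hGc : (G.card : ℝ) ≤ 9 * L ^ (m + 4) := by
      have h1 : (G.card : ℝ) ≤ S * (N + 1) := by
        exact_mod_cast (card_filter_le _ _).trans (grid_card S N)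
      calc (G.card : ℝ) ≤ S * (N + 1) := h1
        _ ≤ (3 * L) * (3 * L ^ (m + 3)) := by
            gcongr
            · linarith
            · linarith
        _ = _ := by ring
    calc ((G.biUnion BK).card : ℝ) ≤ ∑ K ∈ G, ((BK K).card : ℝ) := by
          exact_mod_cast card_biUnion_le
      _ ≤ ∑ K ∈ G, 9 * (H : ℝ) ^ 3 * L ^ (m + 2) / L ^ U' := sum_le_sum hone
      _ = (G.card : ℝ) * (9 * (H : ℝ) ^ 3 * L ^ (m + 2) / L ^ U') := by
          rw [sum_const, nsmul_eq_mul]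
      _ ≤ (9 * L ^ (m + 4)) * (9 * (H : ℝ) ^ 3 * L ^ (m + 2) / L ^ U') := by gcongr
      _ = 81 * (H : ℝ) ^ 3 * L ^ (2 * m + 6) / L ^ U' := by ring
      _ ≤ (H : ℝ) ^ 3 / L ^ U := by
          rw [div_le_div_iff₀ (by positivity) (by positivity), hU']
          have h6 : 81 ≤ L ^ 4 := by nlinarith [sq_nonneg (L - 3), pow_pos hL0 2, pow_pos hL0 3]
          calc 81 * (H : ℝ) ^ 3 * L ^ (2 * m + 6) * L ^ U
              ≤ L ^ 4 * (H : ℝ) ^ 3 * L ^ (2 * m + 6) * L ^ U := by gcongr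
            _ = (H : ℝ) ^ 3 * L ^ (U + 2 * m + 10) := by ring
  · intro t ht htB K hK hKH
    have hK0 : (0 : ℝ) < K := lt_of_lt_of_le (Real.rpow_pos_of_pos hHp _) hK
    have hεle : (H : ℝ) ^ ε = (H : ℝ) ^ (ε / 2) * (H : ℝ) ^ (ε / 2) := by
      rw [← Real.rpow_add hHp]; ring_nf
    have hH2e : 2 ≤ (H : ℝ) ^ (ε / 2) := by
      refine le_trans ?_ hLε
      calc (2 : ℝ) ≤ L ^ 1 := by rw [pow_one]; linarith
        _ ≤ L ^ (m + 4) := pow_le_pow_right₀ hL1 (by omega)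
    have hNK : N ≤ K := by
      have h1 : (N : ℝ) ≤ K := by
        calc (N : ℝ) ≤ L ^ (m + 3) + 1 := hNlt.le
          _ ≤ L ^ (m + 3) * L := by nlinarith
          _ = L ^ (m + 4) := by ring
          _ ≤ (H : ℝ) ^ (ε / 2) := hLε
          _ ≤ (H : ℝ) ^ ε := by rw [hεle]; nlinarith
          _ ≤ K := hK
      exact_mod_cast h1
    have hKle : (K : ℝ) ≤ H := by
      have h1 : 1 ≤ L ^ (B + 1) := one_le_pow₀ hL1
      nlinarith
    have hKS : K < N * 2 ^ S := by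
      have h1 : K ≤ H := by exact_mod_cast hKle
      calc K ≤ H := h1
        _ < 2 ^ S := hS2
        _ ≤ N * 2 ^ S := Nat.le_mul_of_pos_left _ (by omega)
    obtain ⟨K1, hK1, K2, hK2, a1, a2, a3, a4, a5⟩ := grid_near S N K hN1 hNK hKS
    have hG1 : K1 ∈ G := by
      rw [hG, mem_filter]
      refine ⟨hK1, ?_, ?_⟩
      · have h1 : (K : ℝ) ≤ 2 * K1 := by exact_mod_cast a3
        have h2 : 0 < (H : ℝ) ^ (ε / 2) := by positivity
        nlinarith
      · have h1 : (K1 : ℝ) ≤ K := by exact_mod_cast a1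
        calc (K1 : ℝ) * L ^ B ≤ K * L ^ (B + 1) := by
              gcongr
              omega
          _ ≤ H := hKH
    have hG2 : K2 ∈ G := by
      rw [hG, mem_filter]
      refine ⟨hK2, ?_, ?_⟩
      · have h1 : (K : ℝ) ≤ K2 := by exact_mod_cast a2
        have h2 : 0 < (H : ℝ) ^ (ε / 2) := by positivity
        nlinarith
      · have h1 : (K2 : ℝ) ≤ 2 * K := by exact_mod_cast a4
        calc (K2 : ℝ) * L ^ B ≤ (2 * K) * L ^ B := by gcongr
          _ ≤ (L * K) * L ^ B := by gcongr; linarith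
          _ = K * L ^ (B + 1) := by ring
          _ ≤ H := hKH
    have hnot : ∀ K' ∈ G, Er K' t ≤ (K' : ℝ) / L ^ (m + 2) := by
      intro K' hK'
      by_contra hcon
      apply htB
      rw [mem_biUnion]
      refine ⟨K', hK', ?_⟩
      rw [hBK]
      simp only [mem_filter]
      exact ⟨ht, not_le.1 hcon⟩
    obtain ⟨hs0, hs1⟩ := hSSb (q2 t.1 t.2.1 t.2.2)
    have e2 := hnot K2 hG2
    have hK12 : (K1 : ℝ) ≤ K2 := by exact_mod_cast a1.trans a2
    have e1 : Er K1 t ≤ (K2 : ℝ) / L ^ (m + 2) := (hnot K1 hG1).trans (by gcongr)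
    refine (interp (q2 t.1 t.2.1 t.2.2) (SS z (q2 t.1 t.2.1 t.2.2)) K1 K K2 a1 a2 hs0 _ e1 e2).trans ?_
    have h7 : ((K2 : ℝ) - K1) ≤ K / L ^ (m + 3) := by
      rw [le_div_iff₀ (by positivity)]
      have h8 : (N : ℝ) * ((K2 : ℝ) - K1) ≤ K := by
        have h9 : K1 ≤ K2 := a1.trans a2
        have h10 : ((N * (K2 - K1) : ℕ) : ℝ) ≤ K := by exact_mod_cast a5
        rw [Nat.cast_mul, Nat.cast_sub h9] at h10
        exact h10
      nlinarith
    have h11 : (K2 : ℝ) ≤ 2 * K := by exact_mod_cast a4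
    calc (K2 : ℝ) / L ^ (m + 2) + 2 * SS z (q2 t.1 t.2.1 t.2.2) * ((K2 : ℝ) - K1)
        ≤ (2 * K) / L ^ (m + 2) + 2 * L * (K / L ^ (m + 3)) := by
          gcongr
      _ = 4 * K / L ^ (m + 2) := by
          rw [show m + 3 = (m + 2) + 1 by ring, pow_succ L (m + 2)]
          field_simp
          ring
      _ ≤ K / L ^ m := by
          rw [div_le_div_iff₀ (by positivity) (by positivity), pow_add]
          have h12 : 4 ≤ L ^ 2 := by nlinarith
          calc 4 * (K : ℝ) * L ^ m = K * (L ^ m * 4) := by ring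
            _ ≤ K * (L ^ m * L ^ 2) := by gcongr

end Pool.Agent.W80.EC
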