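import Pool.Agent.W80.EC.Block
import Pool.Agent.H442R2.EHI.Core2

/-!
There are few exceptional discriminants.
-/

set_option autoImplicit false

namespace Pool.Agent.W80.EC

open Finset Filter
open scoped Nat
open Pool.Agent.H300R2.EC
open Pool.Agent.Helper919 (XX XX_mul XX_one XX_abs_le XX_sum_bound XX_apply)
open Pool.Agent.H442R2.EHI (evt_log_pow evt_log_ge)

lemma Sd_eq_TE (D : ℤ) (P Q : ℕ) :
    Sd D P Q = TE ((Ioc P Q).filter (fun p : ℕ => p.Prime ∧ p ≠ 2)) D := by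
  unfold Sd TE
  apply sum_congr rfl
  intro p hp
  rw [mem_filter] at hp
  rw [XX_apply, if_pos (hp.2.1.odd_of_ne_two hp.2.2)]

lemma harm_block (P : ℕ) (hP : 1 ≤ P) :
    ∑ p ∈ (Ioc P (2 * P)).filter (fun p : ℕ => p.Prime ∧ p ≠ 2), (1 : ℝ) / p ≤ 1 := by
  have hP0 : (0 : ℝ) < P := by exact_mod_cast hP
  calc ∑ p ∈ (Ioc P (2 * P)).filter (fun p : ℕ => p.Prime ∧ p ≠ 2), (1 : ℝ) / p
      ≤ ∑ p ∈ Ioc P (2 * P), (1 : ℝ) / p :=
        sum_le_sum_of_subset_of_nonneg (filter_subset _ _) fun _ _ _ => by positivity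
    _ ≤ ∑ p ∈ Ioc P (2 * P), (1 : ℝ) / P := by
        apply sum_le_sum
        intro p hp
        rw [mem_Ioc] at hp
        have : (P : ℝ) ≤ p := by exact_mod_cast hp.1.le
        exact one_div_le_one_div_of_le hP0 this
    _ = 1 := by
        rw [sum_const, Nat.card_Ioc, show 2 * P - P = P by omega, nsmul_eq_mul]
        field_simp

/-- the bound for one block, with explicit parameters -/
lemma exc_block (V : ℕ) (H P k : ℕ) (i : ℕ) (hH : 1 ≤ H) (hP : 1 ≤ P) (hk : 1 ≤ k)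
    (hL : 0 < Real.log H)
    (hPk : (H : ℝ) ^ 10 ≤ (P : ℝ) ^ k)
    (hX : (k : ℝ) ^ k * ((Real.log H + i) ^ V) ^ (2 * k) ≤ (H : ℝ) ^ (1 / 8 : ℝ))
    (h400 : 400 ≤ (H : ℝ) ^ 5) :
    (((Dset (5 * H ^ 2)).filter (fun D => 1 / (Real.log H + i) ^ V < |Sd D P (2 * P)|)).card : ℝ) ≤
      2 * (H : ℝ) ^ (1 / 8 : ℝ) * (3 * H + 1) * (1 + k * Real.log ((2 * P : ℕ) : ℝ)) := by
  have hHr : (1 : ℝ) ≤ H := by exact_mod_cast hH
  have hH0 : (0 : ℝ) < H := by linarith
  set A : ℝ := (Real.log H + i) ^ V with hA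
  have hA0 : 0 < A := by positivity
  set E := (Ioc P (2 * P)).filter (fun p : ℕ => p.Prime ∧ p ≠ 2) with hE
  set S := (Dset (5 * H ^ 2)).filter (fun D => 1 / A < |Sd D P (2 * P)|) with hS
  have hkf : (k ! : ℝ) ≤ (k : ℝ) ^ k := by exact_mod_cast k.factorial_le_pow
  have hkf0 : (0 : ℝ) < (k ! : ℝ) := by exact_mod_cast k.factorial_pos
  have hX2 : (k ! : ℝ) * A ^ (2 * k) ≤ (H : ℝ) ^ (1 / 8 : ℝ) :=
    (mul_le_mul_of_nonneg_right hkf (by positivity)).trans hX
  have hH8 : (H : ℝ) ^ (1 / 8 : ℝ) ≤ H := by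
    calc (H : ℝ) ^ (1 / 8 : ℝ) ≤ (H : ℝ) ^ (1 : ℝ) :=
          Real.rpow_le_rpow_of_exponent_le hHr (by norm_num)
      _ = H := Real.rpow_one _
  have hδ : (1 / A) ^ (2 * k) = 1 / A ^ (2 * k) := by rw [div_pow, one_pow]
  have key := block_pow (5 * H ^ 2) P (2 * P) k hP (by omega) hk E
    (fun q hq => by
      rw [hE, mem_filter, mem_Ioc] at hq
      exact ⟨hq.2.1, hq.1.1, hq.1.2⟩) (harm_block P hP) (1 / A) (by positivity)
    (by
      rw [hδ, one_div, inv_mul_eq_div, le_div_iff₀ (by positivity)]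
      refine le_trans ?_ hPk
      calc 16 * (k ! : ℝ) * ((5 * H ^ 2 : ℕ) : ℝ) ^ 2 * A ^ (2 * k)
          = 400 * (H : ℝ) ^ 4 * ((k ! : ℝ) * A ^ (2 * k)) := by push_cast; ring
        _ ≤ (H : ℝ) ^ 5 * (H : ℝ) ^ 4 * H := by
            gcongr
            exact hX2.trans hH8
        _ = _ := by ring) S
    (fun a ha => by
      rw [hS, mem_filter] at ha
      obtain ⟨h1, h2⟩ := ha
      unfold Dset at h1
      rw [mem_filter, mem_Icc] at h1
      refine ⟨h1.2, abs_le.2 ⟨h1.1.1, h1.1.2⟩, ?_⟩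
      rw [← Sd_eq_TE]
      exact h2.le)
  refine key.trans ?_
  rw [hδ, div_div_eq_mul_div, div_one]
  have hsq : Real.sqrt ((5 * H ^ 2 : ℕ) : ℝ) ≤ 3 * H := by
    apply Real.sqrt_le_iff.2
    constructor
    · positivity
    · push_cast; nlinarith
  have hlog : 0 ≤ Real.log ((2 * P : ℕ) : ℝ) := Real.log_natCast_nonneg _
  calc 2 * (k ! : ℝ) * (Real.sqrt ((5 * H ^ 2 : ℕ) : ℝ) + 1) *
        (1 + k * Real.log ((2 * P : ℕ) : ℝ)) * A ^ (2 * k)
      = 2 * ((k ! : ℝ) * A ^ (2 * k)) * (Real.sqrt ((5 * H ^ 2 : ℕ) : ℝ) + 1) *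
        (1 + k * Real.log ((2 * P : ℕ) : ℝ)) := by ring
    _ ≤ 2 * (H : ℝ) ^ (1 / 8 : ℝ) * (3 * H + 1) * (1 + k * Real.log ((2 * P : ℕ) : ℝ)) := by
        gcongr

/-- the choice of the exponent -/
lemma exc_param (V E : ℕ) (hE : 320 * (4 * V + 1) ≤ E) : ∀ᶠ H : ℕ in atTop, ∀ i : ℕ,
    (i : ℝ) ≤ (H : ℝ) ^ (1 / (16 * ((V : ℝ) + 1))) →
    ∃ k : ℕ, 1 ≤ k ∧ (k : ℝ) ≤ Real.log H ∧
      (H : ℝ) ^ 10 ≤ ((⌊Real.log H ^ E⌋₊ * 2 ^ i : ℕ) : ℝ) ^ k ∧
      (k : ℝ) ^ k * ((Real.log H + i) ^ V) ^ (2 * k) ≤ (H : ℝ) ^ (1 / 8 : ℝ) := by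
  set θ : ℝ := 1 / (16 * ((V : ℝ) + 1)) with hθ
  have hV0 : (0 : ℝ) ≤ V := Nat.cast_nonneg _
  have hθ0 : 0 < θ := by positivity
  filter_upwards [evt_log_ge 16, evt_log_pow 1 θ hθ0, evt_log_pow (2 * V) (1 / (8 * ((V : ℝ) + 1)))
    (by positivity), eventually_ge_atTop 1] with H hL16 hLθ hLV hH1 i hi
  set L := Real.log H with hL
  have hL0 : 0 < L := by linarith
  have hHr : (1 : ℝ) ≤ H := by exact_mod_cast hH1
  have hH0 : (0 : ℝ) < H := by linarith
  have hlL : 1 ≤ Real.log L := by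
    rw [Real.le_log_iff_exp_le hL0]
    have := Real.exp_one_lt_d9
    linarith
  have hE320 : (320 : ℝ) * (4 * V + 1) ≤ E := by exact_mod_cast hE
  have hE1 : 320 ≤ (E : ℝ) := by nlinarith
  have hEn : 1 ≤ E := by have : (1:ℝ) ≤ E := by linarith
                         exact_mod_cast this
  set z := ⌊L ^ E⌋₊ with hz
  have hLE : 16 ≤ L ^ E := by
    calc (16 : ℝ) ≤ L ^ 1 := by rw [pow_one]; exact hL16
      _ ≤ L ^ E := pow_le_pow_right₀ (by linarith) hEn
  have hz1 : L ^ E / 2 ≤ z := by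
    have h1 : L ^ E < z + 1 := Nat.lt_floor_add_one _
    linarith
  have hz8 : (8 : ℝ) ≤ z := by linarith
  have hzlog : (E : ℝ) / 2 * Real.log L ≤ Real.log z := by
    have h1 : Real.log (L ^ E / 2) ≤ Real.log z := Real.log_le_log (by positivity) hz1
    rw [Real.log_div (by positivity) (by norm_num), Real.log_pow] at h1
    have h2 := Real.log_two_lt_d9
    nlinarith
  have hzlog0 : 1 ≤ Real.log z := by nlinarith
  set P := z * 2 ^ i with hP
  have hPr : (P : ℝ) = z * 2 ^ i := by rw [hP]; push_cast; ring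
  have hlogP : Real.log P = Real.log z + i * Real.log 2 := by
    rw [hPr, Real.log_mul (by positivity) (by positivity), Real.log_pow]
  have hlog2 := Real.log_two_gt_d9
  have hlogP0 : 1 ≤ Real.log P := by
    rw [hlogP]
    have : 0 ≤ (i : ℝ) * Real.log 2 := by positivity
    linarith
  have hP0 : (0 : ℝ) < P := by rw [hPr]; positivity
  set k := ⌈10 * L / Real.log P⌉₊ with hk
  have hk1 : 1 ≤ k := Nat.one_le_iff_ne_zero.2 (by
    rw [hk]; exact (Nat.ceil_pos.2 (by positivity)).ne')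
  have hkge : 10 * L / Real.log P ≤ k := Nat.le_ceil _
  have hklt : (k : ℝ) < 10 * L / Real.log P + 1 := Nat.ceil_lt_add_one (by positivity)
  have hPk : (H : ℝ) ^ 10 ≤ (P : ℝ) ^ k := by
    rw [← Real.log_le_log_iff (by positivity) (by positivity), Real.log_pow, Real.log_pow]
    rw [div_le_iff₀ (by linarith)] at hkge
    push_cast
    linarith
  refine ⟨k, hk1, ?_, by rw [hP] at hPk; exact_mod_cast hPk, ?_⟩
  · -- k ≤ L
    have h1 : Real.log P ≥ 160 := by
      rw [hlogP]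
      have : 0 ≤ (i : ℝ) * Real.log 2 := by positivity
      nlinarith
    have h2 : 10 * L / Real.log P ≤ L / 16 := by
      rw [div_le_div_iff₀ (by linarith) (by norm_num)]
      nlinarith
    linarith
  · rcases le_or_gt (10 * L) (Real.log P) with hcase | hcase
    · -- k = 1
      have hk2 : k = 1 := by
        have h1 : (k : ℝ) < 2 := by
          have : 10 * L / Real.log P ≤ 1 := by rw [div_le_one (by linarith)]; exact hcase
          linarith
        have h2 : k < 2 := by exact_mod_cast h1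
        omega
      rw [hk2]
      simp only [Nat.cast_one, one_pow, one_mul, mul_one]
      rw [← pow_mul]
      have h1 : L + i ≤ 2 * (H : ℝ) ^ θ := by
        rw [pow_one] at hLθ
        linarith
      have h2 : (2 : ℝ) ^ (2 * V) ≤ (H : ℝ) ^ (1 / (8 * ((V : ℝ) + 1))) := by
        refine le_trans ?_ hLV
        apply pow_le_pow_left₀ (by norm_num)
        linarith
      calc (L + i) ^ (V * 2) ≤ (2 * (H : ℝ) ^ θ) ^ (V * 2) := pow_le_pow_left₀ (by positivity) h1 _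
        _ = 2 ^ (2 * V) * (H : ℝ) ^ (θ * (2 * V)) := by
            rw [mul_pow, Real.rpow_mul hH0.le, mul_comm V 2]
            congr 1
            rw [← Real.rpow_natCast]
            push_cast
            rfl
        _ ≤ (H : ℝ) ^ (1 / (8 * ((V : ℝ) + 1))) * (H : ℝ) ^ (θ * (2 * V)) := by gcongr
        _ = (H : ℝ) ^ (1 / 8 : ℝ) := by
            rw [← Real.rpow_add hH0]
            congr 1
            rw [hθ]
            field_simp
            ring
    · -- small P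
      have hi15 : (i : ℝ) ≤ 15 * L := by
        rw [hlogP] at hcase
        nlinarith
      have hk40 : (k : ℝ) ≤ 40 * L / (E * Real.log L) := by
        have h1 : 1 ≤ 10 * L / Real.log P := by rw [one_le_div (by linarith)]; exact hcase.le
        have h2 : (k : ℝ) ≤ 20 * L / Real.log P := by
          have : 20 * L / Real.log P = 10 * L / Real.log P + 10 * L / Real.log P := by ring
          linarith
        refine h2.trans ?_
        rw [div_le_div_iff₀ (by linarith) (by positivity)]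
        have h3 : (E : ℝ) / 2 * Real.log L ≤ Real.log P := by
          rw [hlogP]
          have : 0 ≤ (i : ℝ) * Real.log 2 := by positivity
          linarith
        nlinarith
      have hkL : (k : ℝ) ≤ L := by
        refine hk40.trans ?_
        rw [div_le_iff₀ (by positivity)]
        have : 40 ≤ (E : ℝ) * Real.log L := by nlinarith
        nlinarith
      have hLi : L + i ≤ L ^ 2 := by nlinarith
      have h1 : (k : ℝ) ^ k * ((L + i) ^ V) ^ (2 * k) ≤ (L ^ (4 * V + 1)) ^ k := by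
        calc (k : ℝ) ^ k * ((L + i) ^ V) ^ (2 * k) = (k * ((L + i) ^ V) ^ 2) ^ k := by
              rw [mul_pow, ← pow_mul ((L + i) ^ V) 2 k]
          _ ≤ (L * ((L ^ 2) ^ V) ^ 2) ^ k := by gcongr
          _ = (L ^ (4 * V + 1)) ^ k := by
              congr 1
              ring
      refine h1.trans ?_
      rw [← Real.log_le_log_iff (by positivity) (by positivity), Real.log_pow, Real.log_pow,
        Real.log_rpow hH0]
      have h2 : (k : ℝ) * (E * Real.log L) ≤ 40 * L := by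
        rwa [le_div_iff₀ (by positivity)] at hk40
      have h3 : (k : ℝ) * Real.log L * (320 * (4 * V + 1)) ≤ 40 * L := by
        calc (k : ℝ) * Real.log L * (320 * (4 * V + 1)) ≤ (k : ℝ) * Real.log L * E := by gcongr
          _ = (k : ℝ) * (E * Real.log L) := by ring
          _ ≤ 40 * L := h2
      push_cast
      nlinarith

open Classical in
/-- there are few exceptional discriminants -/
theorem exc_card (V E : ℕ) (hE : 320 * (4 * V + 1) ≤ E) : ∀ᶠ H : ℕ in atTop,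
    ((Exc V E H).card : ℝ) ≤ (H : ℝ) ^ (3 / 2 : ℝ) := by
  set θ : ℝ := 1 / (16 * ((V : ℝ) + 1)) with hθ
  have hV0 : (0 : ℝ) ≤ V := Nat.cast_nonneg _
  have hθ0 : 0 < θ := by positivity
  have hθ16 : θ ≤ 1 / 16 := by
    rw [hθ]
    apply one_div_le_one_div_of_le (by norm_num)
    nlinarith
  filter_upwards [exc_param V E hE, evt_log_ge (E + 16), evt_log_pow 3 (1 / 64) (by norm_num),
    eventually_ge_atTop 4, evt_log_pow (E + 1) (1 / 16 : ℝ) (by norm_num)]
    with H hpar hL16 hL3 hH4 hLE16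
  have hE0 : (0 : ℝ) ≤ E := Nat.cast_nonneg _
  set L := Real.log H with hL
  have hL0 : 0 < L := by linarith
  have hHr : (4 : ℝ) ≤ H := by exact_mod_cast hH4
  have hH0 : (0 : ℝ) < H := by linarith
  set z := ⌊L ^ E⌋₊ with hz
  set I := ⌊(H : ℝ) ^ θ⌋₊ with hI
  set Sf : ℕ → Finset ℤ := fun i => (Dset (5 * H ^ 2)).filter
    (fun D => 1 / (L + i) ^ V < |Sd D (z * 2 ^ i) (2 * (z * 2 ^ i))|) with hSf
  have hsub : Exc V E H ⊆ (range (I + 1)).biUnion Sf := by
    intro D hD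
    unfold Exc at hD
    rw [mem_filter] at hD
    obtain ⟨h1, i, h2, h3⟩ := hD
    rw [mem_biUnion]
    refine ⟨i, ?_, ?_⟩
    · rw [mem_range, Nat.lt_succ_iff]
      exact Nat.le_floor h2
    · rw [hSf]
      simp only
      rw [mem_filter]
      exact ⟨h1, h3⟩
  have hz1 : 1 ≤ z := by
    rw [hz, Nat.one_le_floor_iff]
    exact one_le_pow₀ (by linarith)
  have hzL : (z : ℝ) ≤ L ^ E := Nat.floor_le (by positivity)
  have hH64 : (1 : ℝ) ≤ (H : ℝ) ^ (1 / 64 : ℝ) := Real.one_le_rpow (by linarith) (by norm_num)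
  have hI2 : (I : ℝ) + 1 ≤ 2 * (H : ℝ) ^ (1 / 16 : ℝ) := by
    have h1 : (I : ℝ) ≤ (H : ℝ) ^ θ := Nat.floor_le (by positivity)
    have h2 : (H : ℝ) ^ θ ≤ (H : ℝ) ^ (1 / 16 : ℝ) :=
      Real.rpow_le_rpow_of_exponent_le (by linarith) hθ16
    have h3 : (1 : ℝ) ≤ (H : ℝ) ^ (1 / 16 : ℝ) := Real.one_le_rpow (by linarith) (by norm_num)
    linarith
  have hone : ∀ i ∈ range (I + 1), ((Sf i).card : ℝ) ≤
      2 * (H : ℝ) ^ (1 / 8 : ℝ) * (4 * H) * (L * (4 * (H : ℝ) ^ (1 / 16 : ℝ))) := by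
    intro i hi
    rw [mem_range, Nat.lt_succ_iff] at hi
    have hiθ : (i : ℝ) ≤ (H : ℝ) ^ θ := (Nat.le_floor_iff (by positivity)).1 hi
    obtain ⟨k, hk1, hkL, hk2, hk3⟩ := hpar i hiθ
    have h400 : 400 ≤ (H : ℝ) ^ 5 := by
      calc (400 : ℝ) ≤ 4 ^ 5 := by norm_num
        _ ≤ _ := pow_le_pow_left₀ (by norm_num) hHr 5
    have key := exc_block V H (z * 2 ^ i) k i (by omega) (Nat.mul_pos hz1 (by positivity)) hk1 hL0
      hk2 hk3 h400
    refine key.trans ?_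
    have hlogP : Real.log ((2 * (z * 2 ^ i) : ℕ) : ℝ) ≤ 3 * (H : ℝ) ^ (1 / 16 : ℝ) := by
      have hzr : (1 : ℝ) ≤ z := by exact_mod_cast hz1
      have e1 : ((2 * (z * 2 ^ i) : ℕ) : ℝ) = 2 ^ (i + 1) * z := by push_cast; ring
      rw [e1, Real.log_mul (by positivity) (by positivity), Real.log_pow]
      have h2 := Real.log_two_lt_d9
      have h2' := Real.log_two_gt_d9
      have h3 : Real.log z ≤ (H : ℝ) ^ (1 / 16 : ℝ) := by
        calc Real.log z ≤ z - 1 := Real.log_le_sub_one_of_pos (by linarith)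
          _ ≤ L ^ E := by linarith
          _ ≤ L ^ (E + 1) := pow_le_pow_right₀ (by linarith) (by omega)
          _ ≤ _ := hLE16
      have h4 : (H : ℝ) ^ θ ≤ (H : ℝ) ^ (1 / 16 : ℝ) :=
        Real.rpow_le_rpow_of_exponent_le (by linarith) hθ16
      have h5 : (1 : ℝ) ≤ (H : ℝ) ^ (1 / 16 : ℝ) := Real.one_le_rpow (by linarith) (by norm_num)
      push_cast
      nlinarith
    have h5 : (1 : ℝ) ≤ (H : ℝ) ^ (1 / 16 : ℝ) := Real.one_le_rpow (by linarith) (by norm_num)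
    have h6 : 1 + (k : ℝ) * Real.log ((2 * (z * 2 ^ i) : ℕ) : ℝ) ≤
        L * (4 * (H : ℝ) ^ (1 / 16 : ℝ)) := by
      calc 1 + (k : ℝ) * Real.log ((2 * (z * 2 ^ i) : ℕ) : ℝ)
          ≤ L * (H : ℝ) ^ (1 / 16 : ℝ) + L * (3 * (H : ℝ) ^ (1 / 16 : ℝ)) := by
            apply add_le_add
            · nlinarith
            · exact mul_le_mul hkL hlogP (Real.log_natCast_nonneg _) hL0.le
        _ = _ := by ring
    gcongr
    linarith
  have hcard : ((Exc V E H).card : ℝ) ≤ ∑ i ∈ range (I + 1), ((Sf i).card : ℝ) := by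
    exact_mod_cast (card_le_card hsub).trans card_biUnion_le
  refine hcard.trans ((sum_le_sum hone).trans ?_)
  rw [sum_const, card_range, nsmul_eq_mul]
  push_cast
  have hLle : 64 * L ≤ (H : ℝ) ^ (1 / 64 : ℝ) := by
    refine le_trans ?_ hL3
    nlinarith [sq_nonneg L, pow_pos hL0 3]
  have e8 : (H : ℝ) ^ (1 / 8 : ℝ) = (H : ℝ) ^ (1 / 8 : ℝ) := rfl
  calc ((I : ℝ) + 1) * (2 * (H : ℝ) ^ (1 / 8 : ℝ) * (4 * H) * (L * (4 * (H : ℝ) ^ (1 / 16 : ℝ))))
      ≤ (2 * (H : ℝ) ^ (1 / 16 : ℝ)) *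
        (2 * (H : ℝ) ^ (1 / 8 : ℝ) * (4 * H) * (L * (4 * (H : ℝ) ^ (1 / 16 : ℝ)))) := by
        gcongr
    _ = (64 * L) * ((H : ℝ) ^ (1 / 16 : ℝ) * (H : ℝ) ^ (1 / 8 : ℝ) * (H : ℝ) ^ (1 : ℝ) *
          (H : ℝ) ^ (1 / 16 : ℝ)) := by rw [Real.rpow_one]; ring
    _ = (64 * L) * (H : ℝ) ^ (5 / 4 : ℝ) := by
        rw [← Real.rpow_add hH0, ← Real.rpow_add hH0, ← Real.rpow_add hH0]
        norm_num
    _ ≤ (H : ℝ) ^ (1 / 64 : ℝ) * (H : ℝ) ^ (5 / 4 : ℝ) := by gcongr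
    _ = (H : ℝ) ^ (81 / 64 : ℝ) := by
        rw [← Real.rpow_add hH0]
        norm_num
    _ ≤ (H : ℝ) ^ (3 / 2 : ℝ) := Real.rpow_le_rpow_of_exponent_le (by linarith) (by norm_num)

end Pool.Agent.W80.EC
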