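import Pool.Agent.H300R2.EC.Defs

/-!
The truncated Euler product of a quadratic polynomial in terms of the Hardy-Littlewood constant.
-/

set_option autoImplicit false

namespace Pool.Agent.W80.EC

open Finset Polynomial
open Pool.Agent.H300R2.EC
open Pool.Agent.H300R2.BH (rho SS)

variable (F : ℤ[X]) (a b c : ℤ)

lemma rho_card (hF : ∀ k : ℤ, F.eval k = a * k ^ 2 + b * k + c) (p : ℕ) [Fact p.Prime] :
    rho F p = (univ.filter (fun x : ZMod p => (a : ZMod p) * x ^ 2 + b * x + c = 0)).card := by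
  unfold rho
  have key : ∀ r : ℕ, ((p : ℤ) ∣ F.eval (r : ℤ)) ↔
      (a : ZMod p) * (r : ZMod p) ^ 2 + b * (r : ZMod p) + c = 0 := by
    intro r
    rw [hF, ← ZMod.intCast_zmod_eq_zero_iff_dvd]
    push_cast
    rfl
  apply card_bij (fun (r : ℕ) _ => (r : ZMod p))
  · intro r hr
    rw [mem_filter] at hr ⊢
    exact ⟨mem_univ _, (key r).1 hr.2⟩
  · intro r hr s hs hrs
    rw [mem_filter, mem_range] at hr hs
    have := (ZMod.natCast_eq_natCast_iff' r s p).1 hrs
    rwa [Nat.mod_eq_of_lt hr.1, Nat.mod_eq_of_lt hs.1] at this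
  · intro x hx
    rw [mem_filter] at hx
    refine ⟨x.val, ?_, ZMod.natCast_zmod_val x⟩
    rw [mem_filter, mem_range]
    refine ⟨ZMod.val_lt x, (key _).2 ?_⟩
    rw [ZMod.natCast_zmod_val]; exact hx.2

lemma rho_odd (hF : ∀ k : ℤ, F.eval k = a * k ^ 2 + b * k + c) (p : ℕ) (hp : p.Prime)
    (hp2 : p ≠ 2) (ha : ¬ (p : ℤ) ∣ a) :
    (rho F p : ℤ) = jacobiSym (b ^ 2 - 4 * a * c) p + 1 := by
  classical
  have : Fact p.Prime := ⟨hp⟩
  rw [← jacobiSym.legendreSym.to_jacobiSym, ← legendreSym.card_sqrts p hp2, rho_card F a b c hF p]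
  have ha0 : (a : ZMod p) ≠ 0 := by
    intro h
    exact ha ((ZMod.intCast_zmod_eq_zero_iff_dvd a p).1 h)
  have h20 : (2 : ZMod p) ≠ 0 := by
    intro h
    have h2 : ((2 : ℕ) : ZMod p) = 0 := by exact_mod_cast h
    rw [ZMod.natCast_eq_zero_iff] at h2
    exact hp2 ((Nat.prime_dvd_prime_iff_eq hp Nat.prime_two).1 h2)
  congr 1
  apply card_bij (fun (x : ZMod p) _ => 2 * (a : ZMod p) * x + b)
  · intro x hx
    rw [mem_filter] at hx
    simp only [Set.mem_toFinset, Set.mem_ofPred_eq]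
    push_cast
    have := hx.2
    linear_combination (4 * (a : ZMod p)) * this
  · intro x _ y _ hxy
    have h1 : 2 * (a : ZMod p) * x = 2 * (a : ZMod p) * y := by
      exact add_right_cancel hxy
    exact mul_left_cancel₀ (mul_ne_zero h20 ha0) h1
  · intro y hy
    simp only [Set.mem_toFinset, Set.mem_ofPred_eq] at hy
    push_cast at hy
    have h2a : 2 * (a : ZMod p) ≠ 0 := mul_ne_zero h20 ha0
    refine ⟨(y - b) / (2 * a), ?_, ?_⟩
    · rw [mem_filter]
      refine ⟨mem_univ _, ?_⟩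
      have h3 : (4 * (a : ZMod p)) ≠ 0 := by
        have : (4 * (a : ZMod p)) = 2 * (2 * a) := by ring
        rw [this]
        exact mul_ne_zero h20 h2a
      apply mul_left_cancel₀ h3
      have h4 : 2 * (a : ZMod p) * ((y - b) / (2 * a)) = y - b := mul_div_cancel₀ _ h2a
      have h5 : 4 * (a : ZMod p) * ((a : ZMod p) * ((y - b) / (2 * a)) ^ 2 +
          b * ((y - b) / (2 * a)) + c) = (2 * (a : ZMod p) * ((y - b) / (2 * a))) ^ 2 +
          2 * b * (2 * (a : ZMod p) * ((y - b) / (2 * a))) + 4 * a * c := by ring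
      rw [h5, h4, mul_zero]
      linear_combination hy
    · rw [mul_div_cancel₀ _ h2a]
      ring

lemma rho_dvd_a (hF : ∀ k : ℤ, F.eval k = a * k ^ 2 + b * k + c) (p : ℕ) (hp : p.Prime)
    (ha : (p : ℤ) ∣ a) (hb : ¬ (p : ℤ) ∣ b) : rho F p = 1 := by
  classical
  have : Fact p.Prime := ⟨hp⟩
  rw [rho_card F a b c hF p]
  have ha0 : (a : ZMod p) = 0 := (ZMod.intCast_zmod_eq_zero_iff_dvd a p).2 ha
  have hb0 : (b : ZMod p) ≠ 0 := fun h => hb ((ZMod.intCast_zmod_eq_zero_iff_dvd b p).1 h)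
  rw [card_eq_one]
  refine ⟨-c / b, ?_⟩
  ext x
  simp only [mem_filter, mem_univ, true_and, mem_singleton]
  rw [ha0, zero_mul, zero_add, eq_div_iff hb0]
  constructor
  · intro h
    linear_combination h
  · intro h
    linear_combination h

lemma rho_dvd_ab (hF : ∀ k : ℤ, F.eval k = a * k ^ 2 + b * k + c) (p : ℕ) (hp : p.Prime)
    (ha : (p : ℤ) ∣ a) (hb : (p : ℤ) ∣ b) (hc : ¬ (p : ℤ) ∣ c) : rho F p = 0 := by
  classical
  have : Fact p.Prime := ⟨hp⟩
  rw [rho_card F a b c hF p]
  have ha0 : (a : ZMod p) = 0 := (ZMod.intCast_zmod_eq_zero_iff_dvd a p).2 ha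
  have hb0 : (b : ZMod p) = 0 := (ZMod.intCast_zmod_eq_zero_iff_dvd b p).2 hb
  have hc0 : (c : ZMod p) ≠ 0 := fun h => hc ((ZMod.intCast_zmod_eq_zero_iff_dvd c p).1 h)
  rw [card_eq_zero, filter_eq_empty_iff]
  intro x _
  rw [ha0, hb0, zero_mul, zero_mul, zero_add, zero_add]
  exact hc0

lemma rho_two (hF : ∀ k : ℤ, F.eval k = a * k ^ 2 + b * k + c)
    (hpar : ¬ (Even (a + b) ∧ Even c)) : rho F 2 = if Even (a + b) then 0 else 1 := by
  unfold rho
  have h0 : F.eval ((0 : ℕ) : ℤ) = c := by rw [hF]; push_cast; ring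
  have h1 : F.eval ((1 : ℕ) : ℤ) = a + b + c := by rw [hF]; push_cast; ring
  split_ifs with h
  · rw [card_eq_zero, filter_eq_empty_iff]
    intro x hx
    rw [mem_range] at hx
    have hc : ¬ Even c := fun hc => hpar ⟨h, hc⟩
    interval_cases x
    · rw [h0]
      intro h2
      exact hc ((even_iff_two_dvd).2 (by exact_mod_cast h2))
    · rw [h1]
      intro h2
      have h3 : Even (a + b + c) := (even_iff_two_dvd).2 (by exact_mod_cast h2)
      exact hc ((Int.even_add.1 h3).1 h)
  · rcases Int.even_or_odd c with hc | hc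
    · have : (range 2).filter (fun k : ℕ => ((2 : ℕ) : ℤ) ∣ F.eval (k : ℤ)) = {0} := by
        ext x
        simp only [mem_filter, mem_range, mem_singleton]
        constructor
        · rintro ⟨hx, hx2⟩
          interval_cases x
          · rfl
          · exfalso
            rw [h1] at hx2
            have h3 : Even (a + b + c) := (even_iff_two_dvd).2 (by exact_mod_cast hx2)
            exact h ((Int.even_add.1 h3).2 hc)
        · rintro rfl
          refine ⟨by norm_num, ?_⟩
          rw [h0]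
          exact_mod_cast even_iff_two_dvd.1 hc
      rw [this, card_singleton]
    · have : (range 2).filter (fun k : ℕ => ((2 : ℕ) : ℤ) ∣ F.eval (k : ℤ)) = {1} := by
        ext x
        simp only [mem_filter, mem_range, mem_singleton]
        constructor
        · rintro ⟨hx, hx2⟩
          interval_cases x
          · exfalso
            rw [h0] at hx2
            have h3 : Even c := (even_iff_two_dvd).2 (by exact_mod_cast hx2)
            exact (Int.not_even_iff_odd.2 hc) h3
          · rfl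
        · rintro rfl
          refine ⟨by norm_num, ?_⟩
          rw [h1]
          have h3 : Even (a + b + c) := by
            have h4 : Odd (a + b) := Int.not_even_iff_odd.1 h
            exact h4.add_odd hc
          exact_mod_cast even_iff_two_dvd.1 h3
      rw [this, card_singleton]

/-- the local factor -/
lemma fac_eq (hF : ∀ k : ℤ, F.eval k = a * k ^ 2 + b * k + c)
    (hg : Int.gcd (Int.gcd a b : ℤ) c = 1) (hpar : ¬ (Even (a + b) ∧ Even c)) (p : ℕ)
    (hp : p.Prime) : (1 - (rho F p : ℝ) / p) / (1 - 1 / (p : ℝ)) =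
      (if p = 2 then (if Even (a + b) then (2 : ℝ) else 1) else 1) *
      ((if p ≠ 2 ∧ ¬ (p : ℤ) ∣ a then
        (1 - (jacobiSym (b ^ 2 - 4 * a * c) p : ℝ) / (p - 1)) else 1) *
      (if p ≠ 2 ∧ (p : ℤ) ∣ a ∧ (p : ℤ) ∣ b then ((p : ℝ) / (p - 1)) else 1)) := by
  by_cases hp2 : p = 2
  · subst hp2
    rw [rho_two F a b c hF hpar]
    split_ifs <;> norm_num at *
  · have h1 : (1 : ℝ) < p := by exact_mod_cast hp.one_lt
    have h2 : (p : ℝ) - 1 ≠ 0 := by linarith
    have h3 : (p : ℝ) ≠ 0 := by linarith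
    rw [if_neg hp2, one_mul]
    by_cases ha : (p : ℤ) ∣ a
    · rw [if_neg (by tauto), one_mul]
      by_cases hb : (p : ℤ) ∣ b
      · rw [if_pos ⟨hp2, ha, hb⟩]
        have hc : ¬ (p : ℤ) ∣ c := by
          intro hc
          have h4 : (p : ℤ) ∣ (Int.gcd a b : ℤ) := Int.dvd_coe_gcd ha hb
          have h5 : (p : ℤ) ∣ (Int.gcd (Int.gcd a b : ℤ) c : ℤ) := Int.dvd_coe_gcd h4 hc
          rw [hg] at h5
          have h6 : p ∣ 1 := by exact_mod_cast h5
          exact hp.one_lt.ne' (Nat.dvd_one.1 h6)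
        rw [rho_dvd_ab F a b c hF p hp ha hb hc]
        push_cast
        field_simp
        ring
      · rw [if_neg (by tauto), rho_dvd_a F a b c hF p hp ha hb]
        push_cast
        field_simp
    · rw [if_pos ⟨hp2, ha⟩, if_neg (by tauto), mul_one]
      have h4 : (rho F p : ℝ) = (jacobiSym (b ^ 2 - 4 * a * c) p : ℝ) + 1 := by
        exact_mod_cast rho_odd F a b c hF p hp hp2 ha
      rw [h4]
      field_simp
      ring

/-- the truncated Euler product -/
theorem SS_quad (hF : ∀ k : ℤ, F.eval k = a * k ^ 2 + b * k + c)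
    (hg : Int.gcd (Int.gcd a b : ℤ) c = 1) (hpar : ¬ (Even (a + b) ∧ Even c)) (z : ℕ)
    (hz : 2 ≤ z) : SS z F = (if Even (a + b) then (2 : ℝ) else 1) *
      (Pd a (b ^ 2 - 4 * a * c) 0 z * Pg a b 0 z) := by
  have hI : Icc 1 z = Ioc 0 z := by ext x; simp only [mem_Icc, mem_Ioc]; omega
  unfold SS Pd Pg
  rw [hI, prod_congr rfl (fun p hp => fac_eq F a b c hF hg hpar p (mem_filter.1 hp).2),
    prod_mul_distrib, prod_mul_distrib]
  congr 1
  · rw [prod_ite_eq']
    rw [if_pos]
    rw [mem_filter, mem_Ioc]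
    exact ⟨⟨by norm_num, hz⟩, Nat.prime_two⟩
  · congr 1
    · rw [← prod_filter, filter_filter]
    · rw [← prod_filter, filter_filter]

end Pool.Agent.W80.EC
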