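import Pool.Agent.W80.EC.Almost
import Pool.Agent.W80.EC.ExcB
import Pool.Agent.W80.EC.Prod
import Pool.Agent.W80.EC.SSq
import Pool.Agent.Helper256.KM.Mertens
import Pool.Agent.Helper112.Arith

/-!
Counting the exceptional triples; lower bounds for the main term.
-/

set_option autoImplicit false

namespace Pool.Agent.W80.EC

open Finset Polynomial Filter
open Pool.Agent.H442R2.EHI (evt_log_pow evt_log_ge)
open Pool.Agent.H300R2.BH
open Pool.Agent.H300R2.FB
open Pool.Agent.H300R2.EC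

/-- discriminant -/
def disc (t : ℤ × ℤ × ℤ) : ℤ := t.2.1 ^ 2 - 4 * t.1 * t.2.2

lemma mem_Box (H : ℕ) (t : ℤ × ℤ × ℤ) : t ∈ Box H ↔ (1 ≤ t.1 ∧ t.1 ≤ H) ∧
    (-(H : ℤ) ≤ t.2.1 ∧ t.2.1 ≤ H) ∧ (-(H : ℤ) ≤ t.2.2 ∧ t.2.2 ≤ H) := by
  unfold Box
  rw [mem_product, mem_product, mem_Icc, mem_Icc, mem_Icc]

lemma disc_bound (H : ℕ) (t : ℤ × ℤ × ℤ) (ht : t ∈ Box H) : |disc t| ≤ 5 * (H : ℤ) ^ 2 := by
  rw [mem_Box] at ht
  obtain ⟨⟨h1, h2⟩, ⟨h3, h4⟩, ⟨h5, h6⟩⟩ := ht
  have hH : (0 : ℤ) ≤ H := Int.natCast_nonneg _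
  unfold disc
  have hb : t.2.1 ^ 2 ≤ (H : ℤ) ^ 2 := sq_le_sq' h3 h4
  have hac : |t.1 * t.2.2| ≤ (H : ℤ) ^ 2 := by
    rw [abs_mul, sq]
    exact mul_le_mul (abs_le.2 ⟨by omega, h2⟩) (abs_le.2 ⟨h5, h6⟩) (abs_nonneg _) hH
  have hb0 : 0 ≤ t.2.1 ^ 2 := sq_nonneg _
  rw [abs_le] at hac ⊢
  constructor <;> nlinarith

lemma disc_mem (H : ℕ) (t : ℤ × ℤ × ℤ) (ht : t ∈ Box H) (hsq : ¬ IsSquare (disc t)) :
    disc t ∈ Dset (5 * H ^ 2) := by
  unfold Dset
  rw [mem_filter, mem_Icc]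
  have h := abs_le.1 (disc_bound H t ht)
  push_cast
  refine ⟨h, ?_⟩
  intro h0
  apply hsq
  rw [h0]
  exact ⟨0, rfl⟩

open Classical in
/-- few triples have an exceptional discriminant -/
theorem exc_triples (V E U : ℕ) (hE : 320 * (4 * V + 1) ≤ E) : ∀ᶠ H : ℕ in atTop,
    (((Box H).filter (fun t => ¬ IsSquare (disc t) ∧ disc t ∈ Exc V E H)).card : ℝ) ≤
      (H : ℝ) ^ 3 / Real.log H ^ U := by
  obtain ⟨C, hC0, hC⟩ := Pool.Agent.Helper112.divisor_bound (1 / 8) (by norm_num)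
  filter_upwards [exc_card V E hE, evt_log_ge (6 * C + 1), evt_log_pow (U + 1) (1 / 4) (by norm_num),
    eventually_ge_atTop 1] with H hexc hLC hLU hH1
  set L := Real.log H with hL
  have hL0 : 0 < L := by linarith
  have hHr : (1 : ℝ) ≤ H := by exact_mod_cast hH1
  have hHp : (0 : ℝ) < H := by linarith
  set B3 := (Box H).filter (fun t => ¬ IsSquare (disc t) ∧ disc t ∈ Exc V E H) with hB3
  set Tg := (Exc V E H ×ˢ Icc (-(H : ℤ)) H).sigma (fun p : ℤ × ℤ =>
    (Icc (1 : ℤ) H).filter (fun a => p.2 ^ 2 - p.1 ≠ 0 ∧ a ∣ p.2 ^ 2 - p.1)) with hTg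
  have h1 : B3.card ≤ Tg.card := by
    apply card_le_card_of_injOn (fun t => (⟨(disc t, t.2.1), t.1⟩ : Σ _ : ℤ × ℤ, ℤ))
    · intro t ht
      rw [mem_coe, hB3, mem_filter, mem_Box] at ht
      obtain ⟨⟨⟨a1, a2⟩, ⟨a3, a4⟩, ⟨a5, a6⟩⟩, b1, b2⟩ := ht
      rw [mem_coe, hTg, mem_sigma, mem_product, mem_filter, mem_Icc, mem_Icc]
      refine ⟨⟨b2, a3, a4⟩, ⟨a1, a2⟩, ?_, ?_⟩
      · simp only
        intro h0
        apply b1
        have : disc t = t.2.1 ^ 2 := by linarith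
        rw [this]
        exact ⟨t.2.1, by ring⟩
      · simp only
        refine ⟨4 * t.2.2, ?_⟩
        unfold disc
        ring
    · intro t ht s hs hts
      rw [mem_coe, hB3, mem_filter, mem_Box] at ht hs
      simp only [Sigma.mk.injEq, Prod.mk.injEq, heq_eq_eq] at hts
      obtain ⟨⟨h2, h3⟩, h4⟩ := hts
      have h5 : t.2.2 = s.2.2 := by
        unfold disc at h2
        rw [h3, h4] at h2
        have h6 : 4 * s.1 * t.2.2 = 4 * s.1 * s.2.2 := by linarith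
        have h7 : (4 * s.1) ≠ 0 := by
          have := hs.1.1.1
          omega
        exact mul_left_cancel₀ h7 h6
      exact Prod.ext h4 (Prod.ext h3 h5)
  have h2 : (Tg.card : ℝ) ≤ ∑ p ∈ Exc V E H ×ˢ Icc (-(H : ℤ)) H, C * (2 * (H : ℝ) ^ (1 / 4 : ℝ)) := by
    rw [hTg, card_sigma]
    push_cast
    apply sum_le_sum
    intro p hp
    rw [mem_product, mem_Icc] at hp
    obtain ⟨hp1, hp2, hp3⟩ := hp
    by_cases h0 : p.2 ^ 2 - p.1 = 0
    · rw [filter_false_of_mem (by intro a _; tauto)]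
      simp only [card_empty, Nat.cast_zero]
      positivity
    · set n := (p.2 ^ 2 - p.1).natAbs with hn
      have hn1 : 1 ≤ n := Int.natAbs_pos.2 h0
      have hDb : |p.1| ≤ 5 * (H : ℤ) ^ 2 := by
        unfold Exc at hp1
        rw [mem_filter] at hp1
        have h3 := hp1.1
        unfold Dset at h3
        rw [mem_filter, mem_Icc] at h3
        have h4 := h3.1
        push_cast at h4
        exact abs_le.2 h4
      have hnle : (n : ℝ) ≤ 6 * (H : ℝ) ^ 2 := by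
        have h3 : (n : ℤ) ≤ 6 * (H : ℤ) ^ 2 := by
          rw [hn, Int.natCast_natAbs]
          have hb : p.2 ^ 2 ≤ (H : ℤ) ^ 2 := sq_le_sq' hp2 hp3
          have hb0 : 0 ≤ p.2 ^ 2 := sq_nonneg _
          rw [abs_le] at hDb ⊢
          constructor <;> linarith
        exact_mod_cast h3
      have h3 : (((Icc (1 : ℤ) H).filter (fun a => p.2 ^ 2 - p.1 ≠ 0 ∧ a ∣ p.2 ^ 2 - p.1)).card) ≤
          n.divisors.card := by
        apply card_le_card_of_injOn (fun a => a.toNat)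
        · intro a ha
          rw [mem_coe, mem_filter, mem_Icc] at ha
          rw [mem_coe, Nat.mem_divisors]
          refine ⟨?_, by omega⟩
          obtain ⟨⟨g1, g2⟩, _, g3⟩ := ha
          have g4 : ((a.toNat : ℕ) : ℤ) ∣ (n : ℤ) := by
            rw [Int.toNat_of_nonneg (by omega), hn, Int.natCast_natAbs, dvd_abs]
            exact g3
          exact_mod_cast g4
        · intro a ha b hb hab
          rw [mem_coe, mem_filter, mem_Icc] at ha hb
          simp only at hab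
          omega
      have h4 : (n : ℝ) ^ (1 / 8 : ℝ) ≤ 2 * (H : ℝ) ^ (1 / 4 : ℝ) := by
        calc (n : ℝ) ^ (1 / 8 : ℝ) ≤ (6 * (H : ℝ) ^ 2) ^ (1 / 8 : ℝ) :=
              Real.rpow_le_rpow (by positivity) hnle (by norm_num)
          _ = 6 ^ (1 / 8 : ℝ) * (H : ℝ) ^ (1 / 4 : ℝ) := by
              rw [Real.mul_rpow (by norm_num) (by positivity), ← Real.rpow_natCast (H : ℝ) 2,
                ← Real.rpow_mul hHp.le]
              norm_num
          _ ≤ 2 * (H : ℝ) ^ (1 / 4 : ℝ) := by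
              gcongr
              calc (6 : ℝ) ^ (1 / 8 : ℝ) ≤ (2 ^ (8 : ℝ)) ^ (1 / 8 : ℝ) := by
                    apply Real.rpow_le_rpow (by norm_num) (by norm_num) (by norm_num)
                _ = 2 := by rw [← Real.rpow_mul (by norm_num)]; norm_num
      calc ((((Icc (1 : ℤ) H).filter (fun a => p.2 ^ 2 - p.1 ≠ 0 ∧ a ∣ p.2 ^ 2 - p.1)).card : ℕ) : ℝ)
          ≤ (n.divisors.card : ℝ) := by exact_mod_cast h3
        _ ≤ C * (n : ℝ) ^ (1 / 8 : ℝ) := hC n hn1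
        _ ≤ _ := by gcongr
  calc (B3.card : ℝ) ≤ (Tg.card : ℝ) := by exact_mod_cast h1
    _ ≤ ∑ p ∈ Exc V E H ×ˢ Icc (-(H : ℤ)) H, C * (2 * (H : ℝ) ^ (1 / 4 : ℝ)) := h2
    _ = ((Exc V E H).card : ℝ) * (2 * H + 1) * (C * (2 * (H : ℝ) ^ (1 / 4 : ℝ))) := by
        rw [sum_const, card_product, Int.card_Icc, nsmul_eq_mul]
        have : ((H : ℤ) + 1 - -(H : ℤ)).toNat = 2 * H + 1 := by omega
        rw [this]
        push_cast
        ring
    _ ≤ (H : ℝ) ^ (3 / 2 : ℝ) * (3 * H) * (C * (2 * (H : ℝ) ^ (1 / 4 : ℝ))) := by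
        gcongr
        linarith
    _ = 6 * C * ((H : ℝ) ^ (3 / 2 : ℝ) * (H : ℝ) ^ (1 : ℝ) * (H : ℝ) ^ (1 / 4 : ℝ)) := by
        rw [Real.rpow_one]; ring
    _ = 6 * C * (H : ℝ) ^ (11 / 4 : ℝ) := by
        rw [← Real.rpow_add hHp, ← Real.rpow_add hHp]; norm_num
    _ ≤ (H : ℝ) ^ 3 / L ^ U := by
        rw [le_div_iff₀ (by positivity)]
        calc 6 * C * (H : ℝ) ^ (11 / 4 : ℝ) * L ^ U ≤ L * (H : ℝ) ^ (11 / 4 : ℝ) * L ^ U := by
              gcongr
              linarith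
          _ = L ^ (U + 1) * (H : ℝ) ^ (11 / 4 : ℝ) := by ring
          _ ≤ (H : ℝ) ^ (1 / 4 : ℝ) * (H : ℝ) ^ (11 / 4 : ℝ) := by gcongr
          _ = (H : ℝ) ^ 3 := by
              rw [← Real.rpow_add hHp, ← Real.rpow_natCast]
              norm_num

/-- few triples have a small leading coefficient -/
theorem small_lead (H m : ℕ) (hH : 1 ≤ H) (hL : 0 < Real.log H) :
    (((Box H).filter (fun t => (t.1 : ℝ) * Real.log H ^ m ≤ H)).card : ℝ) ≤
      9 * (H : ℝ) ^ 3 / Real.log H ^ m := by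
  set L := Real.log H with hLdef
  have hHr : (1 : ℝ) ≤ H := by exact_mod_cast hH
  have hsub : (Box H).filter (fun t => (t.1 : ℝ) * L ^ m ≤ H) ⊆
      Icc (1 : ℤ) ⌊(H : ℝ) / L ^ m⌋₊ ×ˢ (Icc (-(H : ℤ)) H ×ˢ Icc (-(H : ℤ)) H) := by
    intro t ht
    rw [mem_filter, mem_Box] at ht
    obtain ⟨⟨⟨a1, a2⟩, ⟨a3, a4⟩, ⟨a5, a6⟩⟩, b⟩ := ht
    rw [mem_product, mem_product, mem_Icc, mem_Icc, mem_Icc]
    refine ⟨⟨a1, ?_⟩, ⟨a3, a4⟩, a5, a6⟩
    obtain ⟨n, hn⟩ := Int.eq_ofNat_of_zero_le (by omega : 0 ≤ t.1)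
    rw [hn] at b ⊢
    have : n ≤ ⌊(H : ℝ) / L ^ m⌋₊ := by
      apply Nat.le_floor
      rw [le_div_iff₀ (by positivity)]
      exact_mod_cast b
    exact_mod_cast this
  have h1 : (((Box H).filter (fun t => (t.1 : ℝ) * L ^ m ≤ H)).card : ℝ) ≤
      (⌊(H : ℝ) / L ^ m⌋₊ : ℝ) * ((2 * H + 1) * (2 * H + 1)) := by
    have h2 := card_le_card hsub
    rw [card_product, card_product, Int.card_Icc, Int.card_Icc] at h2
    have e1 : ((H : ℤ) + 1 - -(H : ℤ)).toNat = 2 * H + 1 := by omega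
    have e2 : ((⌊(H : ℝ) / L ^ m⌋₊ : ℤ) + 1 - 1).toNat = ⌊(H : ℝ) / L ^ m⌋₊ := by omega
    rw [e1, e2] at h2
    exact_mod_cast h2
  refine h1.trans ?_
  have h3 : (⌊(H : ℝ) / L ^ m⌋₊ : ℝ) ≤ H / L ^ m := Nat.floor_le (by positivity)
  calc (⌊(H : ℝ) / L ^ m⌋₊ : ℝ) * ((2 * H + 1) * (2 * H + 1))
      ≤ (H / L ^ m) * ((3 * H) * (3 * H)) := by
        gcongr <;> linarith
    _ = 9 * (H : ℝ) ^ 3 / L ^ m := by ring

/-- lower bound for the sum of `1 / log f` -/
theorem lF_lower (ε : ℝ) (hε : 0 < ε) (m : ℕ) : ∀ᶠ H : ℕ in atTop, ∀ t ∈ Box H,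
    (H : ℝ) < (t.1 : ℝ) * Real.log H ^ m → ∀ K : ℕ, (H : ℝ) ^ ε ≤ K → K ≤ H →
    (K : ℝ) / (8 * Real.log H) ≤ lF (q2 t.1 t.2.1 t.2.2) K := by
  filter_upwards [evt_log_ge 16, evt_log_pow (m + 1) ε hε, eventually_ge_atTop 3]
    with H hL16 hLε hH3 t ht hlead K hK hKH
  set L := Real.log H with hL
  have hL0 : 0 < L := by linarith
  have hHr : (3 : ℝ) ≤ H := by exact_mod_cast hH3
  rw [mem_Box] at ht
  obtain ⟨⟨a1, a2⟩, ⟨a3, a4⟩, ⟨a5, a6⟩⟩ := ht
  have a1r : (1 : ℝ) ≤ t.1 := by exact_mod_cast a1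
  have a2r : (t.1 : ℝ) ≤ H := by exact_mod_cast a2
  have a3r : -(H : ℝ) ≤ t.2.1 := by exact_mod_cast a3
  have a4r : (t.2.1 : ℝ) ≤ H := by exact_mod_cast a4
  have a5r : -(H : ℝ) ≤ t.2.2 := by exact_mod_cast a5
  have a6r : (t.2.2 : ℝ) ≤ H := by exact_mod_cast a6
  have hLm : 1 ≤ L ^ m := one_le_pow₀ (by linarith)
  set R := ⌈2 * L ^ m⌉₊ + 3 with hR
  have hR1 : 2 * L ^ m + 3 ≤ R := by
    rw [hR]; push_cast
    have := Nat.le_ceil (2 * L ^ m)
    linarith
  have hR2 : (R : ℝ) ≤ 2 * L ^ m + 4 := by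
    rw [hR]; push_cast
    have := Nat.ceil_lt_add_one (show 0 ≤ 2 * L ^ m by positivity)
    linarith
  have hRK : 2 * (R : ℝ) ≤ K := by
    calc 2 * (R : ℝ) ≤ 12 * L ^ m := by linarith
      _ ≤ L * L ^ m := by gcongr; linarith
      _ = L ^ (m + 1) := by ring
      _ ≤ (H : ℝ) ^ ε := hLε
      _ ≤ K := hK
  have hKHr : (K : ℝ) ≤ H := by exact_mod_cast hKH
  -- values
  have hval : ∀ k ∈ Icc R K, 2 ≤ (q2 t.1 t.2.1 t.2.2).eval (k : ℤ) ∧
      1 / (4 * L) ≤ 1 / Real.log (((q2 t.1 t.2.1 t.2.2).eval (k : ℤ) : ℤ) : ℝ) := by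
    intro k hk
    rw [mem_Icc] at hk
    have hk1 : (R : ℝ) ≤ k := by exact_mod_cast hk.1
    have hk2 : (k : ℝ) ≤ H := (by exact_mod_cast hk.2 : (k : ℝ) ≤ K).trans hKHr
    have hkr : 2 * L ^ m + 3 ≤ (k : ℝ) := hR1.trans hk1
    have hk3 : (3 : ℝ) ≤ k := by linarith
    rw [q2_eval]
    have hak : 2 * (H : ℝ) ≤ t.1 * k := by
      calc 2 * (H : ℝ) ≤ 2 * (t.1 * L ^ m) := by linarith
        _ = t.1 * (2 * L ^ m) := by ring
        _ ≤ t.1 * k := by
          apply mul_le_mul_of_nonneg_left _ (by linarith)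
          linarith
    have hlow : 2 ≤ (t.1 : ℝ) * (k : ℝ) ^ 2 + t.2.1 * k + t.2.2 := by
      have h1 : (H : ℝ) ≤ t.1 * k + t.2.1 := by linarith
      have h2 : (H : ℝ) * k ≤ (t.1 * k + t.2.1) * k := mul_le_mul_of_nonneg_right h1 (by linarith)
      have h3 : (H : ℝ) * 3 ≤ H * k := mul_le_mul_of_nonneg_left hk3 (by linarith)
      nlinarith
    have hup : (t.1 : ℝ) * (k : ℝ) ^ 2 + t.2.1 * k + t.2.2 ≤ (H : ℝ) ^ 4 := by
      have hk0 : (0 : ℝ) ≤ k := by linarith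
      have g1 : (t.1 : ℝ) * (k : ℝ) ^ 2 ≤ H * (H : ℝ) ^ 2 := by
        apply mul_le_mul a2r (by nlinarith) (by positivity) (by linarith)
      have g2 : (t.2.1 : ℝ) * k ≤ H * H := by
        calc (t.2.1 : ℝ) * k ≤ H * k := mul_le_mul_of_nonneg_right a4r hk0
          _ ≤ H * H := by
            apply mul_le_mul_of_nonneg_left hk2 (by linarith)
      have g3 : (H : ℝ) * H ≤ H * (H : ℝ) ^ 2 := by
        apply mul_le_mul_of_nonneg_left _ (by linarith)
        nlinarith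
      have g4 : (H : ℝ) ≤ H * (H : ℝ) ^ 2 := by nlinarith
      have g5 : 3 * (H * (H : ℝ) ^ 2) ≤ (H : ℝ) ^ 4 := by
        have : (H : ℝ) ^ 4 = H * (H * (H : ℝ) ^ 2) := by ring
        rw [this]
        apply mul_le_mul_of_nonneg_right hHr (by positivity)
      linarith
    constructor
    · have : ((2 : ℤ) : ℝ) ≤ ((t.1 * (k : ℤ) ^ 2 + t.2.1 * (k : ℤ) + t.2.2 : ℤ) : ℝ) := by
        push_cast
        exact hlow
      exact_mod_cast this
    · push_cast
      have hlog : Real.log ((t.1 : ℝ) * (k : ℝ) ^ 2 + t.2.1 * k + t.2.2) ≤ 4 * L := by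
        have := Real.log_le_log (by linarith) hup
        rw [Real.log_pow] at this
        push_cast at this
        exact this
      have hlog0 : 0 < Real.log ((t.1 : ℝ) * (k : ℝ) ^ 2 + t.2.1 * k + t.2.2) :=
        Real.log_pos (by linarith)
      exact one_div_le_one_div_of_le hlog0 hlog
  unfold lF
  have hRn : 2 * R ≤ K := by exact_mod_cast hRK
  calc (K : ℝ) / (8 * L) ≤ ∑ k ∈ Icc R K, 1 / (4 * L) := by
        rw [sum_const, Nat.card_Icc, nsmul_eq_mul]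
        have h1 : (K : ℝ) / 2 ≤ ((K + 1 - R : ℕ) : ℝ) := by
          rw [Nat.cast_sub (by omega)]
          push_cast
          linarith
        calc (K : ℝ) / (8 * L) = (K / 2) * (1 / (4 * L)) := by
              field_simp
              ring
          _ ≤ _ := by gcongr
    _ ≤ ∑ k ∈ Icc R K, 1 / Real.log (((q2 t.1 t.2.1 t.2.2).eval (k : ℤ) : ℤ) : ℝ) :=
        sum_le_sum fun k hk => (hval k hk).2
    _ ≤ _ := by
        apply sum_le_sum_of_subset_of_nonneg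
        · intro k hk
          have h1 := (hval k hk).1
          rw [mem_Icc] at hk
          rw [mem_filter, mem_Icc]
          exact ⟨⟨by omega, hk.2⟩, h1⟩
        · intro k hk _
          exact (lF_term _ k (mem_filter.mp hk).2).1

/-- lower bound for the truncated product -/
theorem Pd_lower (E : ℕ) : ∀ᶠ H : ℕ in atTop, ∀ a D : ℤ,
    1 / Real.log H ≤ Pd a D 0 ⌊Real.log H ^ (E + 1)⌋₊ := by
  obtain ⟨C, hC⟩ := Pool.Agent.Helper256.KM.mertens_inv
  have hsmall : ∀ᶠ H : ℕ in atTop,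
      Real.exp (3 * C) * ((E + 1) * Real.log (Real.log H)) ^ 3 ≤ Real.log H := by
    have h1 : (fun t : ℝ => Real.log t ^ 3) =o[atTop] (id : ℝ → ℝ) :=
      Real.isLittleO_pow_log_id_atTop
    have h2 := h1.bound (show (0:ℝ) < 1 / (Real.exp (3 * C) * ((E : ℝ) + 1) ^ 3) by positivity)
    have h3 := (Real.tendsto_log_atTop.comp (tendsto_natCast_atTop_atTop (R := ℝ))).eventually h2
    filter_upwards [h3, evt_log_ge (Real.exp 1)] with x hx hx2
    simp only [Function.comp, id] at hx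
    have ht0 : 0 < Real.log x := lt_of_lt_of_le (Real.exp_pos 1) hx2
    have hl : 1 ≤ Real.log (Real.log x) := by
      rw [Real.le_log_iff_exp_le ht0]; exact hx2
    rw [Real.norm_of_nonneg (by positivity), Real.norm_of_nonneg ht0.le] at hx
    have h4 : 0 < Real.exp (3 * C) * ((E : ℝ) + 1) ^ 3 := by positivity
    calc Real.exp (3 * C) * ((E + 1) * Real.log (Real.log x)) ^ 3
        = (Real.exp (3 * C) * ((E : ℝ) + 1) ^ 3) * Real.log (Real.log x) ^ 3 := by ring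
      _ ≤ (Real.exp (3 * C) * ((E : ℝ) + 1) ^ 3) *
          (1 / (Real.exp (3 * C) * ((E : ℝ) + 1) ^ 3) * Real.log x) := by gcongr
      _ = Real.log x := by field_simp
  filter_upwards [hsmall, evt_log_ge 4] with H hs hL4 a D
  set L := Real.log H with hL
  have hL0 : 0 < L := by linarith
  set z := ⌊L ^ (E + 1)⌋₊ with hz
  have hz4 : 4 ≤ L ^ (E + 1) := by
    calc (4 : ℝ) ≤ L ^ 1 := by rw [pow_one]; exact hL4
      _ ≤ L ^ (E + 1) := pow_le_pow_right₀ (by linarith) (by omega)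
  have hz3 : 3 ≤ z := by
    apply Nat.le_floor
    push_cast
    linarith
  have hzr : (3 : ℝ) ≤ z := by exact_mod_cast hz3
  have hlz1 : 1 ≤ Real.log z := by
    rw [Real.le_log_iff_exp_le (by linarith)]
    have := Real.exp_one_lt_d9
    linarith
  have hlz : Real.log z ≤ (E + 1) * Real.log L := by
    calc Real.log z ≤ Real.log (L ^ (E + 1)) :=
          Real.log_le_log (by linarith) (Nat.floor_le (by positivity))
      _ = (E + 1) * Real.log L := by rw [Real.log_pow]; push_cast; ring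
  have hM := (abs_le.1 (hC z hz3)).2
  have hgl : -(3 * (C + Real.log (Real.log z))) ≤ Gl a D 0 z := by
    have h1 : ∑ p ∈ (Ioc 0 z).filter (fun p : ℕ => p.Prime ∧ p ≠ 2 ∧ ¬ (p : ℤ) ∣ a),
        (-(3 * (1 / (p : ℝ)))) ≤ Gl a D 0 z := by
      unfold Gl
      apply sum_le_sum
      intro p hp
      rw [mem_filter] at hp
      have hp2 := hp.2.2.1
      have h3 : 3 ≤ p := by have := hp.2.1.two_le; omega
      have h3r : (3 : ℝ) ≤ p := by exact_mod_cast h3
      have hx := fac_abs D p hp.2.1 hp2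
      have hpos := fac_pos D p hp.2.1 hp2
      set x := (jacobiSym D p : ℝ) / (p - 1) with hxdef
      have hx1 : x ≤ 1 / (p - 1) := by
        rw [hxdef]
        apply div_le_div_of_nonneg_right _ (by linarith)
        exact (le_abs_self _).trans (jac_abs D p)
      have h4 : 1 - 1 / (1 - x) ≤ Real.log (1 - x) := by
        rw [one_div]
        exact Real.one_sub_inv_le_log_of_pos hpos
      have h5 : -(3 * (1 / (p : ℝ))) ≤ 1 - 1 / (1 - x) := by
        have h6 : (p - 2 : ℝ) / (p - 1) ≤ 1 - x := by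
          have : (p - 2 : ℝ) / (p - 1) = 1 - 1 / (p - 1) := by
            have : (p : ℝ) - 1 ≠ 0 := by linarith
            field_simp
            ring
          rw [this]
          linarith
        have h7 : 0 < (p - 2 : ℝ) / (p - 1) := div_pos (by linarith) (by linarith)
        have h8 : 1 / (1 - x) ≤ (p - 1 : ℝ) / (p - 2) := by
          calc 1 / (1 - x) ≤ 1 / ((p - 2 : ℝ) / (p - 1)) := one_div_le_one_div_of_le h7 h6
            _ = (p - 1 : ℝ) / (p - 2) := by rw [one_div_div]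
        have h9 : (p - 1 : ℝ) / (p - 2) ≤ 1 + 3 * (1 / p) := by
          have e1 : 1 + 3 * (1 / (p : ℝ)) = (p + 3) / p := by
            field_simp
          rw [e1, div_le_div_iff₀ (by linarith) (by linarith)]
          nlinarith
        linarith
      linarith
    refine le_trans ?_ h1
    rw [sum_neg_distrib, ← mul_sum, neg_le_neg_iff]
    have h2 : ∑ p ∈ (Ioc 0 z).filter (fun p : ℕ => p.Prime ∧ p ≠ 2 ∧ ¬ (p : ℤ) ∣ a), 1 / (p : ℝ) ≤
        ∑ p ∈ (Icc 1 z).filter Nat.Prime, 1 / (p : ℝ) := by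
      apply sum_le_sum_of_subset_of_nonneg
      · intro p hp
        rw [mem_filter, mem_Ioc] at hp
        rw [mem_filter, mem_Icc]
        exact ⟨⟨by omega, hp.1.2⟩, hp.2.1⟩
      · intro p _ _
        positivity
    linarith
  rw [Pd_eq_exp]
  calc 1 / L ≤ 1 / (Real.exp (3 * C) * Real.log z ^ 3) := by
        apply one_div_le_one_div_of_le (by positivity)
        refine le_trans ?_ hs
        gcongr
    _ = Real.exp (-(3 * (C + Real.log (Real.log z)))) := by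
        rw [Real.exp_neg, one_div]
        congr 1
        rw [mul_add, Real.exp_add]
        congr 1
        rw [show 3 * Real.log (Real.log z) = Real.log (Real.log z ^ 3) by
          rw [Real.log_pow]; push_cast; ring, Real.exp_log (by positivity)]
    _ ≤ Real.exp (Gl a D 0 z) := Real.exp_le_exp.2 hgl

end Pool.Agent.W80.EC
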