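import Pool.Agent.W80.EC.MainX

/-!
The final statement.
-/

set_option autoImplicit false

namespace Pool.Agent.W80.EC

open Finset Polynomial Filter
open Pool.Agent.H442R2.EHI (evt_log_pow evt_log_ge)
open Pool.Agent.H300R2.BH
open Pool.Agent.H300R2.FB
open Pool.Agent.H300R2.EC

open Classical in
/-- counting up to `x` against counting the first `M` -/
lemma card_compare (a b c : ℤ) (x : ℝ) (M : ℕ)
    (hM : ∀ k : ℕ, (((a * (k : ℤ) ^ 2 + b * (k : ℤ) + c : ℤ) : ℝ) ≤ x ↔ k ≤ M)) :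
    |(Nat.card {m : ℕ | Nat.Prime (Int.toNat (a * (m : ℤ) ^ 2 + b * (m : ℤ) + c)) ∧
      ((a * (m : ℤ) ^ 2 + b * (m : ℤ) + c : ℤ) : ℝ) ≤ x} : ℝ) - pv (q2 a b c) M| ≤ 1 := by
  have h1 : {m : ℕ | Nat.Prime (Int.toNat (a * (m : ℤ) ^ 2 + b * (m : ℤ) + c)) ∧
      ((a * (m : ℤ) ^ 2 + b * (m : ℤ) + c : ℤ) : ℝ) ≤ x} =
      (((range (M + 1)).filter (fun m : ℕ => Nat.Prime (Int.toNat (a * (m : ℤ) ^ 2 + b * (m : ℤ) + c)))
        : Finset ℕ) : Set ℕ) := by
    ext m
    simp only [Set.mem_ofPred_eq, coe_filter, mem_range]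
    rw [hM]
    constructor
    · rintro ⟨h1, h2⟩; exact ⟨by omega, h1⟩
    · rintro ⟨h1, h2⟩; exact ⟨h2, by omega⟩
  rw [h1]
  have h2 : Nat.card ((((range (M + 1)).filter (fun m : ℕ =>
      Nat.Prime (Int.toNat (a * (m : ℤ) ^ 2 + b * (m : ℤ) + c))) : Finset ℕ) : Set ℕ)) =
      ((range (M + 1)).filter (fun m : ℕ =>
        Nat.Prime (Int.toNat (a * (m : ℤ) ^ 2 + b * (m : ℤ) + c)))).card := by
    simp only [Nat.card_eq_fintype_card, Fintype.card_coe, coe_sort_coe]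
  rw [h2]
  unfold pv
  simp_rw [q2_eval]
  set A := (range (M + 1)).filter (fun m : ℕ =>
        Nat.Prime (Int.toNat (a * (m : ℤ) ^ 2 + b * (m : ℤ) + c))) with hA
  set B := (Icc 1 M).filter (fun k : ℕ => (a * (k : ℤ) ^ 2 + b * (k : ℤ) + c).toNat.Prime) with hB
  have h3 : B ⊆ A := by
    intro k hk
    rw [hB, mem_filter, mem_Icc] at hk
    rw [hA, mem_filter, mem_range]
    exact ⟨by omega, hk.2⟩
  have h4 : A ⊆ insert 0 B := by
    intro k hk
    rw [hA, mem_filter, mem_range] at hk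
    rw [mem_insert, hB, mem_filter, mem_Icc]
    rcases Nat.eq_zero_or_pos k with h | h
    · exact Or.inl h
    · exact Or.inr ⟨⟨h, by omega⟩, hk.2⟩
  have h5 : B.card ≤ A.card := card_le_card h3
  have h6 : A.card ≤ B.card + 1 := (card_le_card h4).trans (card_insert_le _ _)
  have h5r : (B.card : ℝ) ≤ A.card := by exact_mod_cast h5
  have h6r : (A.card : ℝ) ≤ B.card + 1 := by exact_mod_cast h6
  rw [abs_le]
  constructor <;> linarith

lemma num1 (L R P Q w y lx : ℝ) (hL200 : 200 ≤ L) (hR1 : 1 ≤ R) (hP : R * L ^ 4 ≤ P)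
    (hPQ : P ≤ Q) (hQw : Q ≤ w) (hw : w ^ 2 = y) (hlx0 : 0 < lx) (hlx3 : lx ≤ 3 * L) :
    2 * R + 4 ≤ w ∧ 4 * lx ^ 2 ≤ w ∧ (3 * R + 8) * lx ≤ y ∧ R + 2 ≤ Q ∧ w ≤ y := by
  have hL0 : 0 < L := by linarith
  have hL1 : 1 ≤ L := by linarith
  have h3 : (200 : ℝ) ^ 3 ≤ L ^ 3 := pow_le_pow_left₀ (by norm_num) hL200 3
  have h2 : (200 : ℝ) ^ 2 ≤ L ^ 2 := pow_le_pow_left₀ (by norm_num) hL200 2
  have e4 : L ^ 4 = L ^ 3 * L := by ring
  have e42 : L ^ 4 = L ^ 2 * L ^ 2 := by ring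
  have hL4big : 8000000 * L ≤ L ^ 4 := by
    rw [e4]
    have := mul_le_mul_of_nonneg_right h3 hL0.le
    linarith
  have hL4 : 0 < L ^ 4 := by positivity
  have hRL : 1 * L ^ 4 ≤ R * L ^ 4 := mul_le_mul_of_nonneg_right hR1 hL4.le
  have hRbig : R * (8000000 * L) ≤ R * L ^ 4 := mul_le_mul_of_nonneg_left hL4big (by linarith)
  have hRL2 : R * 1 ≤ R * L := mul_le_mul_of_nonneg_left hL1 (by linarith)
  have g1 : 2 * R + 4 ≤ R * L ^ 4 := by linarith
  have g4 : R + 2 ≤ R * L ^ 4 := by linarith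
  have g2 : 4 * lx ^ 2 ≤ L ^ 4 := by
    have a1 : lx ^ 2 ≤ (3 * L) ^ 2 := pow_le_pow_left₀ hlx0.le hlx3 2
    have a2 : 4 * (3 * L) ^ 2 = 36 * L ^ 2 := by ring
    have a3 : 36 * L ^ 2 ≤ L ^ 2 * L ^ 2 := mul_le_mul_of_nonneg_right (by linarith) (by positivity)
    rw [e42]
    linarith
  have g3 : (3 * R + 8) * lx ≤ R * L ^ 4 := by
    have a1 : (3 * R + 8) * lx ≤ (11 * R) * (3 * L) :=
      mul_le_mul (by linarith) hlx3 hlx0.le (by linarith)
    have a2 : (11 * R) * (3 * L) = 33 * (R * L) := by ring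
    have a3 : R * (8000000 * L) = 8000000 * (R * L) := by ring
    linarith
  have hw1 : 1 ≤ w := by linarith
  have hwy : w ≤ y := by
    rw [← hw, sq]
    have := mul_le_mul_of_nonneg_left hw1 (by linarith : (0:ℝ) ≤ w)
    linarith
  exact ⟨by linarith, by linarith, by linarith, by linarith, hwy⟩

lemma num2 (L lx Y S : ℝ) (y : ℝ) (hL200 : 200 ≤ L) (hlx0 : 0 < lx) (hlx3 : lx ≤ 3 * L)
    (hY : Y = y / lx) (hy : L ^ 4 ≤ y) (hS : 1 / (2 * L) ≤ S) : 1 ≤ S * Y / lx := by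
  have hL0 : 0 < L := by linarith
  have hy0 : 0 < y := lt_of_lt_of_le (by positivity) hy
  have hY0 : 0 < Y := by rw [hY]; positivity
  have hS0 : 0 ≤ S := le_trans (by positivity) hS
  rw [le_div_iff₀ hlx0, one_mul]
  have h1 : 2 * L * lx ≤ Y := by
    rw [hY, le_div_iff₀ hlx0]
    have h2 : 2 * L * lx * lx ≤ 2 * L * (3 * L) * (3 * L) := by gcongr
    have h3 : 2 * L * (3 * L) * (3 * L) ≤ L ^ 4 := by
      have : L ^ 4 = L ^ 3 * L := by ring
      rw [this]
      have h4 : 2 * L * (3 * L) * (3 * L) = L ^ 3 * 18 := by ring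
      rw [h4]
      gcongr
      linarith
    linarith
  calc lx = (1 / (2 * L)) * (2 * L * lx) := by field_simp
    _ ≤ S * Y := by gcongr

lemma mt_eq (a b : ℤ) (C x l : ℝ) : (if Even (a + b) then (2 : ℝ) else 1) * C /
      Real.sqrt (a : ℝ) * (Real.sqrt x / l) *
      ∏ p ∈ (Nat.primeFactors (Int.gcd a b)).filter (fun p : ℕ => 2 < p),
        ((p : ℝ) / ((p : ℝ) - 1)) =
    (ep a b * C * Gf a b) * ((Real.sqrt x / Real.sqrt (a : ℝ)) / l) := by
  unfold Gf ep
  ring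

open Classical in
/-- the final statement -/
theorem final (ε : ℝ) (hε : 0 < ε) (U : ℕ) : ∃ B H0 : ℕ, ∀ H : ℕ, H0 ≤ H →
    ∃ Bad : Finset (ℤ × ℤ × ℤ), (Bad.card : ℝ) ≤ (H : ℝ) ^ 3 / Real.log H ^ U ∧
      ∀ a b c : ℤ, 1 ≤ a → a ≤ H → |b| ≤ H → |c| ≤ H → (a, b, c) ∉ Bad →
        Int.gcd (Int.gcd a b : ℤ) c = 1 → ¬ IsSquare (b ^ 2 - 4 * a * c) →
        ¬ (Even (a + b) ∧ Even c) →
        ∃ C : ℝ, 0 < C ∧
          Tendsto (fun N : ℕ => ∏ p ∈ (Finset.range N).filter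
              (fun p : ℕ => Nat.Prime p ∧ 2 < p ∧ ¬ ((p : ℤ) ∣ a)),
            (1 - ((jacobiSym (b ^ 2 - 4 * a * c) p : ℤ) : ℝ) / ((p : ℝ) - 1))) atTop (nhds C) ∧
          (∀ K : ℕ, (H : ℝ) ^ ε ≤ K → (K : ℝ) * Real.log H ^ B ≤ H →
            |(((Icc 1 K).filter (fun m : ℕ =>
                Nat.Prime (Int.toNat (a * (m : ℤ) ^ 2 + b * (m : ℤ) + c)))).card : ℝ) -
              (if Even (a + b) then (2 : ℝ) else 1) * C *
              (∏ p ∈ (Nat.primeFactors (Int.gcd a b)).filter (fun p : ℕ => 2 < p),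
                ((p : ℝ) / ((p : ℝ) - 1))) *
              ∑ m ∈ (Icc 1 K).filter (fun m : ℕ => 2 ≤ a * (m : ℤ) ^ 2 + b * (m : ℤ) + c),
                1 / Real.log ((a * (m : ℤ) ^ 2 + b * (m : ℤ) + c : ℤ) : ℝ)| ≤
            ((if Even (a + b) then (2 : ℝ) else 1) * C *
              (∏ p ∈ (Nat.primeFactors (Int.gcd a b)).filter (fun p : ℕ => 2 < p),
                ((p : ℝ) / ((p : ℝ) - 1))) *
              ∑ m ∈ (Icc 1 K).filter (fun m : ℕ => 2 ≤ a * (m : ℤ) ^ 2 + b * (m : ℤ) + c),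
                1 / Real.log ((a * (m : ℤ) ^ 2 + b * (m : ℤ) + c : ℤ) : ℝ)) / Real.log H ^ U) ∧
          (∀ x : ℝ, (H : ℝ) ^ (1 + ε) ≤ x → x * Real.log H ^ B ≤ (H : ℝ) ^ 3 →
            |(Nat.card {m : ℕ | Nat.Prime (Int.toNat (a * (m : ℤ) ^ 2 + b * (m : ℤ) + c)) ∧
                ((a * (m : ℤ) ^ 2 + b * (m : ℤ) + c : ℤ) : ℝ) ≤ x} : ℝ) -
              (if Even (a + b) then (2 : ℝ) else 1) * C / Real.sqrt (a : ℝ) *
                (Real.sqrt x / Real.log x) *
                ∏ p ∈ (Nat.primeFactors (Int.gcd a b)).filter (fun p : ℕ => 2 < p),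
                  ((p : ℝ) / ((p : ℝ) - 1))| ≤
            (100 / Real.log x) * ((if Even (a + b) then (2 : ℝ) else 1) * C / Real.sqrt (a : ℝ) *
                (Real.sqrt x / Real.log x) *
                ∏ p ∈ (Nat.primeFactors (Int.gcd a b)).filter (fun p : ℕ => 2 < p),
                  ((p : ℝ) / ((p : ℝ) - 1)))) := by
  set U' := U + 1 with hU'
  set ε' := min (ε / 4) 1 with hε'
  have hε'0 : 0 < ε' := lt_min (by linarith) one_pos
  have hε'4 : ε' ≤ ε / 4 := min_le_left _ _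
  have hε'1 : ε' ≤ 1 := min_le_right _ _
  obtain ⟨B0, H1, hmain⟩ := mainK ε' hε'0 U'
  set m := U' + 2 with hm
  set B := m + 2 * B0 + 4 with hB
  have hev : ∀ᶠ H : ℕ in atTop, H1 ≤ H ∧ 200 ≤ Real.log H ∧
      Real.log H ^ (m + 4) ≤ (H : ℝ) ^ (ε' / 2) ∧ 1 ≤ H := by
    filter_upwards [eventually_ge_atTop H1, evt_log_ge 200,
      evt_log_pow (m + 4) (ε' / 2) (by linarith), eventually_ge_atTop 1] with H h1 h2 h3 h4
    exact ⟨h1, h2, h3, h4⟩
  obtain ⟨H3, hH3⟩ := eventually_atTop.mp hev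
  refine ⟨B, H3, fun H hH => ?_⟩
  obtain ⟨hH1, hL200, hLε, hHn⟩ := hH3 H hH
  obtain ⟨Bad, hBad, hgood⟩ := hmain H hH1
  set L := Real.log H with hL
  have hL0 : 0 < L := by linarith
  have hL1 : 1 ≤ L := by linarith
  have hHr : (1 : ℝ) ≤ H := by exact_mod_cast hHn
  have hHp : (0 : ℝ) < H := by linarith
  refine ⟨Bad, hBad.trans ?_, ?_⟩
  · gcongr
    omega
  intro a b c ha1 ha2 hb hc hnB hgcd hsq hpar
  have ht : ((a, b, c) : ℤ × ℤ × ℤ) ∈ Box H := by
    rw [mem_Box]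
    exact ⟨⟨ha1, ha2⟩, abs_le.1 hb, abs_le.1 hc⟩
  obtain ⟨hlead, C, hC0, hClim, hSlow, hK⟩ := hgood (a, b, c) ht hnB hgcd hsq hpar
  simp only [disc] at hClim
  simp only at hlead hSlow hK
  refine ⟨C, hC0, hClim, ?_, ?_⟩
  · -- lengths
    intro K hK1 hK2
    have h1 : (H : ℝ) ^ ε' ≤ K := by
      refine le_trans ?_ hK1
      apply Real.rpow_le_rpow_of_exponent_le hHr
      linarith
    have h2 : (K : ℝ) * L ^ B0 ≤ H := by
      refine le_trans ?_ hK2
      gcongr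
      omega
    have h3 := hK K h1 h2
    unfold pv lF Gf ep at h3
    simp_rw [q2_eval] at h3
    refine h3.trans ?_
    have h0 : 0 ≤ (if Even (a + b) then (2 : ℝ) else 1) * C *
        (∏ p ∈ (Nat.primeFactors (Int.gcd a b)).filter (fun p : ℕ => 2 < p),
          ((p : ℝ) / ((p : ℝ) - 1))) *
        ∑ m ∈ (Icc 1 K).filter (fun m : ℕ => 2 ≤ a * (m : ℤ) ^ 2 + b * (m : ℤ) + c),
          1 / Real.log ((a * (m : ℤ) ^ 2 + b * (m : ℤ) + c : ℤ) : ℝ) := by
      apply mul_nonneg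
      · apply mul_nonneg
        · apply mul_nonneg _ hC0.le
          split_ifs <;> norm_num
        · apply prod_nonneg
          intro p hp
          rw [mem_filter] at hp
          have : (2 : ℝ) < p := by exact_mod_cast hp.2
          exact div_nonneg (by linarith) (by linarith)
      · apply sum_nonneg
        intro k hk
        rw [mem_filter] at hk
        have h5 : (2 : ℝ) ≤ ((a * (k : ℤ) ^ 2 + b * (k : ℤ) + c : ℤ) : ℝ) := by exact_mod_cast hk.2
        have := Real.log_nonneg (by linarith : (1 : ℝ) ≤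
          ((a * (k : ℤ) ^ 2 + b * (k : ℤ) + c : ℤ) : ℝ))
        positivity
    gcongr
    omega
  · -- the form of Hardy and Littlewood
    intro x hx1 hx2
    have har : (1 : ℝ) ≤ a := by exact_mod_cast ha1
    have har2 : (a : ℝ) ≤ H := by exact_mod_cast ha2
    have ha0 : (0 : ℝ) < a := by linarith
    have hx0 : 0 < x := lt_of_lt_of_le (Real.rpow_pos_of_pos hHp _) hx1
    set R := L ^ m with hR
    have hR1 : 1 ≤ R := one_le_pow₀ hL1
    set y := Real.sqrt x / Real.sqrt a with hy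
    have hsa : Real.sqrt (a : ℝ) ^ 2 = a := Real.sq_sqrt ha0.le
    have hsa0 : 0 < Real.sqrt (a : ℝ) := Real.sqrt_pos.2 ha0
    have hsx : Real.sqrt x ^ 2 = x := Real.sq_sqrt hx0.le
    have hy2 : y ^ 2 * a = x := by
      rw [hy, div_pow, hsa, hsx]
      field_simp
    have hy0 : 0 < y := by rw [hy]; exact div_pos (Real.sqrt_pos.2 hx0) hsa0
    -- lower bound for y
    have hylow : (H : ℝ) ^ (2 * ε') ≤ y := by
      have h1 : ((H : ℝ) ^ (2 * ε')) ^ 2 ≤ y ^ 2 := by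
        have h2 : y ^ 2 = x / a := by rw [← hy2]; field_simp
        rw [h2, le_div_iff₀ ha0]
        calc ((H : ℝ) ^ (2 * ε')) ^ 2 * a ≤ (H : ℝ) ^ (4 * ε') * H := by
              have : ((H : ℝ) ^ (2 * ε')) ^ 2 = (H : ℝ) ^ (4 * ε') := by
                rw [← Real.rpow_natCast, ← Real.rpow_mul hHp.le]
                congr 1
                push_cast
                ring
              rw [this]
              gcongr
          _ = (H : ℝ) ^ (1 + 4 * ε') := by
              rw [Real.rpow_add hHp, Real.rpow_one, mul_comm]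
          _ ≤ (H : ℝ) ^ (1 + ε) := by
              apply Real.rpow_le_rpow_of_exponent_le hHr
              linarith
          _ ≤ x := hx1
      exact (pow_le_pow_iff_left₀ (by positivity) hy0.le (by norm_num)).1 h1
    have hlx3 : Real.log x ≤ 3 * L := by
      have h1 : x ≤ (H : ℝ) ^ 3 := by
        have : 1 ≤ L ^ B := one_le_pow₀ hL1
        nlinarith
      have h2 := Real.log_le_log hx0 h1
      rw [Real.log_pow] at h2
      push_cast at h2
      exact h2
    have hHx : (H : ℝ) ≤ x := by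
      calc (H : ℝ) = (H : ℝ) ^ (1 : ℝ) := (Real.rpow_one _).symm
        _ ≤ (H : ℝ) ^ (1 + ε) := Real.rpow_le_rpow_of_exponent_le hHr (by linarith)
        _ ≤ x := hx1
    have hlxL : L ≤ Real.log x := Real.log_le_log hHp hHx
    have hlx0 : 0 < Real.log x := by linarith
    -- powers of log against y
    have hHe : (H : ℝ) ^ (2 * ε') = (H : ℝ) ^ ε' * (H : ℝ) ^ ε' := by
      rw [← Real.rpow_add hHp]; ring_nf
    have hHe2 : (H : ℝ) ^ ε' = (H : ℝ) ^ (ε' / 2) * (H : ℝ) ^ (ε' / 2) := by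
      rw [← Real.rpow_add hHp]; ring_nf
    have hLm4 : L ^ (m + 4) = R * L ^ 4 := by rw [hR, pow_add]
    have hLm4' : R * L ^ 4 ≤ (H : ℝ) ^ (ε' / 2) := by rw [← hLm4]; exact hLε
    have hHh1 : 1 ≤ (H : ℝ) ^ (ε' / 2) := Real.one_le_rpow hHr (by linarith)
    have hHe1 : (H : ℝ) ^ (ε' / 2) ≤ (H : ℝ) ^ ε' :=
      Real.rpow_le_rpow_of_exponent_le hHr (by linarith)
    have hsylow : (H : ℝ) ^ ε' ≤ Real.sqrt y := by
      apply Real.le_sqrt_of_sq_le
      rw [sq, ← hHe]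
      exact hylow
    obtain ⟨hsy1, hsy2, hyR, hRQ, hsy3⟩ := num1 L R ((H : ℝ) ^ (ε' / 2)) ((H : ℝ) ^ ε')
      (Real.sqrt y) y (Real.log x) hL200 hR1 hLm4' hHe1 hsylow (Real.sq_sqrt hy0.le) hlx0 hlx3
    have hysR : 2 * R + 4 ≤ y := hsy1.trans hsy3
    obtain ⟨M, hM1, hM2, hM3⟩ := segment a b c H R x y ha1 hb hc hlead hR1 hy2 hysR hHx
    have hasym := lF_asym a b c H R x y M ha1 hb hc hlead hR1 hy2 hM1 hM2
      (fun k hk => (hM3 k).2 hk) (by linarith) hyR hsy1 hsy2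
    have hcmp := card_compare a b c x M hM3
    -- the range of M
    have hMlow : (H : ℝ) ^ ε' ≤ M := by
      have h2 : 2 * (H : ℝ) ^ ε' ≤ y := by
        refine le_trans ?_ hylow
        rw [hHe]
        have h3 : 2 ≤ (H : ℝ) ^ ε' := by linarith
        exact mul_le_mul_of_nonneg_right h3 (by positivity)
      linarith
    have hMup : (M : ℝ) * L ^ B0 ≤ H := by
      have h1 : (M : ℝ) ≤ 2 * y := by linarith
      have h2 : y * L ^ (B0 + 1) ≤ H := by
        have h3 : (y * L ^ (B0 + 1)) ^ 2 ≤ (H : ℝ) ^ 2 := by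
          have h4 : y ^ 2 * H ≤ x * R := by
            calc y ^ 2 * H ≤ y ^ 2 * (a * R) := by gcongr
              _ = x * R := by rw [← hy2]; ring
          have h5 : x * R * L ^ (2 * B0 + 4) ≤ (H : ℝ) ^ 3 := by
            calc x * R * L ^ (2 * B0 + 4) = x * L ^ B := by
                  rw [hR, hB, mul_assoc, ← pow_add]
                  congr 2
              _ ≤ (H : ℝ) ^ 3 := hx2
          have h6 : (y * L ^ (B0 + 1)) ^ 2 * H ≤ (H : ℝ) ^ 2 * H := by
            calc (y * L ^ (B0 + 1)) ^ 2 * H = (y ^ 2 * H) * L ^ (2 * B0 + 2) := by ring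
              _ ≤ (x * R) * L ^ (2 * B0 + 2) := by gcongr
              _ ≤ (x * R) * L ^ (2 * B0 + 4) := by
                  gcongr
                  norm_num
              _ ≤ (H : ℝ) ^ 3 := h5
              _ = (H : ℝ) ^ 2 * H := by ring
          exact le_of_mul_le_mul_right h6 hHp
        exact (pow_le_pow_iff_left₀ (by positivity) hHp.le (by norm_num)).1 h3
      calc (M : ℝ) * L ^ B0 ≤ (2 * y) * L ^ B0 := by gcongr
        _ ≤ (L * y) * L ^ B0 := by gcongr; linarith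
        _ = y * L ^ (B0 + 1) := by ring
        _ ≤ H := h2
    have hpv := hK M hMlow hMup
    set S := ep a b * C * Gf a b with hS
    have hS0 : 0 < S := lt_of_lt_of_le (by positivity) hSlow
    set Y := y / Real.log x with hY
    have hY0 : 0 < Y := by positivity
    have hYl : y / Real.log x ^ 2 = Y / Real.log x := by
      rw [hY, sq]
      exact (div_div y (Real.log x) (Real.log x)).symm
    have hmt := mt_eq a b C x (Real.log x)
    rw [← hy, ← hY, ← hS] at hmt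
    rw [hmt]
    set lx := Real.log x with hlx
    set F := lF (q2 a b c) M with hF
    rw [hYl] at hasym
    have hF2 : F ≤ 2 * Y := by
      have h1 := (abs_le.1 hasym).2
      have h2 : 60 * (Y / lx) ≤ Y := by
        rw [← mul_div_assoc, div_le_iff₀ hlx0, mul_comm]
        exact mul_le_mul_of_nonneg_left (by linarith) hY0.le
      linarith
    have hLU : S * F / L ^ U' ≤ 6 * (S * Y / lx) := by
      have h1 : L ≤ L ^ U' := by
        calc L = L ^ 1 := (pow_one _).symm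
          _ ≤ L ^ U' := pow_le_pow_right₀ hL1 (by omega)
      calc S * F / L ^ U' ≤ S * (2 * Y) / L := by
            have hF0 : 0 ≤ F := (lF_bounds _ _).1
            gcongr
        _ ≤ S * (2 * Y) / (lx / 3) := by
            gcongr
            linarith
        _ = 6 * (S * Y / lx) := by
            field_simp
            ring
    have h1SY : 1 ≤ S * Y / lx := by
      have hLy : L ^ 4 ≤ y := by
        have h1 : 1 * L ^ 4 ≤ R * L ^ 4 := mul_le_mul_of_nonneg_right hR1 (by positivity)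
        linarith
      exact num2 L lx Y S y hL200 hlx0 hlx3 hY hLy hSlow
    have hfin1 : |pv (q2 a b c) M - S * Y| ≤ 66 * (S * Y / lx) := by
      have e1 : pv (q2 a b c) M - S * Y = (pv (q2 a b c) M - S * F) + S * (F - Y) := by ring
      rw [e1]
      calc |(pv (q2 a b c) M - S * F) + S * (F - Y)|
          ≤ |pv (q2 a b c) M - S * F| + |S * (F - Y)| := abs_add_le _ _
        _ ≤ 6 * (S * Y / lx) + S * (60 * (Y / lx)) := by
            apply add_le_add
            · exact hpv.trans hLU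
            · rw [abs_mul, abs_of_pos hS0]
              gcongr
        _ = 66 * (S * Y / lx) := by ring
    calc |(Nat.card {m : ℕ | Nat.Prime (Int.toNat (a * (m : ℤ) ^ 2 + b * (m : ℤ) + c)) ∧
                ((a * (m : ℤ) ^ 2 + b * (m : ℤ) + c : ℤ) : ℝ) ≤ x} : ℝ) - S * Y|
        ≤ |(Nat.card {m : ℕ | Nat.Prime (Int.toNat (a * (m : ℤ) ^ 2 + b * (m : ℤ) + c)) ∧
                ((a * (m : ℤ) ^ 2 + b * (m : ℤ) + c : ℤ) : ℝ) ≤ x} : ℝ) - pv (q2 a b c) M| +
          |pv (q2 a b c) M - S * Y| := abs_sub_le _ _ _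
      _ ≤ 1 + 66 * (S * Y / lx) := add_le_add hcmp hfin1
      _ ≤ 100 * (S * Y / lx) := by linarith
      _ = (100 / lx) * (S * Y) := by ring

end Pool.Agent.W80.EC
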