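import Pool.Agent.H300R2.FB.Full2

/-!
From the mean value to almost all polynomials, simultaneously for all lengths.
-/

set_option autoImplicit false

namespace Pool.Agent.W80.EC

open Finset Polynomial Filter
open Pool.Agent.H442R2.EHI (evt_log_pow evt_log_ge)
open Pool.Agent.H300R2.BH
open Pool.Agent.H300R2.FB

lemma pv_mono (F : ℤ[X]) {K K' : ℕ} (h : K ≤ K') : pv F K ≤ pv F K' := by
  unfold pv
  exact_mod_cast card_le_card (filter_subset_filter _ (Icc_subset_Icc_right h))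

lemma lF_mono (F : ℤ[X]) {K K' : ℕ} (h : K ≤ K') : lF F K ≤ lF F K' := by
  unfold lF
  apply sum_le_sum_of_subset_of_nonneg
  · exact filter_subset_filter _ (Icc_subset_Icc_right h)
  · intro k hk _
    exact (lF_term F k (mem_filter.mp hk).2).1

lemma lF_diff (F : ℤ[X]) {K K' : ℕ} (h : K ≤ K') : lF F K' ≤ lF F K + 2 * ((K' : ℝ) - K) := by
  unfold lF
  have h1 : Icc 1 K' = Icc 1 K ∪ Ioc K K' := by
    ext x; simp only [mem_Icc, mem_union, mem_Ioc]; omega
  rw [h1, filter_union, sum_union]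
  · gcongr
    calc ∑ k ∈ (Ioc K K').filter (fun k : ℕ => 2 ≤ F.eval (k : ℤ)),
          1 / Real.log ((F.eval (k : ℤ) : ℤ) : ℝ)
        ≤ ∑ k ∈ (Ioc K K').filter (fun k : ℕ => 2 ≤ F.eval (k : ℤ)), (2 : ℝ) :=
          sum_le_sum fun k hk => (lF_term F k (mem_filter.mp hk).2).2
      _ ≤ ∑ k ∈ Ioc K K', (2 : ℝ) :=
          sum_le_sum_of_subset_of_nonneg (filter_subset _ _) fun _ _ _ => by norm_num
      _ = 2 * ((K' : ℝ) - K) := by
          rw [sum_const, Nat.card_Ioc, nsmul_eq_mul, Nat.cast_sub h]; ring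
  · rw [disjoint_left]
    intro x hx hx2
    rw [mem_filter, mem_Icc] at hx
    rw [mem_filter, mem_Ioc] at hx2
    omega

/-- interpolation between grid points -/
lemma interp (F : ℤ[X]) (s : ℝ) (K1 K K2 : ℕ) (h1 : K1 ≤ K) (h2 : K ≤ K2) (hs : 0 ≤ s)
    (δ : ℝ) (e1 : |pv F K1 - s * lF F K1| ≤ δ) (e2 : |pv F K2 - s * lF F K2| ≤ δ) :
    |pv F K - s * lF F K| ≤ δ + 2 * s * ((K2 : ℝ) - K1) := by
  have a1 := pv_mono F h1
  have a2 := pv_mono F h2
  have b1 := lF_mono F h1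
  have b2 := lF_mono F h2
  have b3 := lF_diff F (h1.trans h2)
  rw [abs_le] at e1 e2 ⊢
  have c1 : s * lF F K1 ≤ s * lF F K := mul_le_mul_of_nonneg_left b1 hs
  have c2 : s * lF F K ≤ s * lF F K2 := mul_le_mul_of_nonneg_left b2 hs
  have c3 : s * lF F K2 ≤ s * (lF F K1 + 2 * ((K2 : ℝ) - K1)) := mul_le_mul_of_nonneg_left b3 hs
  constructor
  · nlinarith
  · nlinarith

/-- the grid -/
def grid (S N : ℕ) : Finset ℕ := (range S ×ˢ Icc N (2 * N)).image (fun p => p.2 * 2 ^ p.1)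

lemma grid_card (S N : ℕ) : (grid S N).card ≤ S * (N + 1) := by
  unfold grid
  refine card_image_le.trans ?_
  rw [card_product, card_range, Nat.card_Icc]
  have : 2 * N + 1 - N = N + 1 := by omega
  rw [this]

/-- every number in the range lies between two neighbours of the grid -/
lemma grid_near (S N K : ℕ) (hN : 1 ≤ N) (h1 : N ≤ K) (h2 : K < N * 2 ^ S) :
    ∃ K1 ∈ grid S N, ∃ K2 ∈ grid S N, K1 ≤ K ∧ K ≤ K2 ∧ K ≤ 2 * K1 ∧ K2 ≤ 2 * K ∧
      N * (K2 - K1) ≤ K := by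
  set s := Nat.log 2 (K / N) with hs
  have hKN : 1 ≤ K / N := (Nat.one_le_div_iff (by omega)).2 h1
  have a1 : 2 ^ s ≤ K / N := Nat.pow_log_le_self 2 (by omega)
  have a2 : K / N < 2 ^ (s + 1) := Nat.lt_pow_succ_log_self (by norm_num) _
  have a3 : N * 2 ^ s ≤ K := by
    calc N * 2 ^ s ≤ N * (K / N) := Nat.mul_le_mul_left _ a1
      _ ≤ K := Nat.mul_div_le K N
  have a4 : K < N * 2 ^ (s + 1) := by
    calc K < N * (K / N + 1) := by
          have := Nat.lt_mul_div_succ K (show 0 < N by omega)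
          simpa using this
      _ ≤ N * 2 ^ (s + 1) := Nat.mul_le_mul_left _ a2
  have hsS : s < S := by
    by_contra hcon
    have h3 : 2 ^ S ≤ 2 ^ s := Nat.pow_le_pow_right (by norm_num) (by omega)
    have h4 : N * 2 ^ S ≤ N * 2 ^ s := Nat.mul_le_mul_left _ h3
    omega
  have h2s : 0 < 2 ^ s := by positivity
  set m := K / 2 ^ s with hm
  have b1 : N ≤ m := (Nat.le_div_iff_mul_le h2s).2 a3
  have b2 : m < 2 * N := by
    rw [hm, Nat.div_lt_iff_lt_mul h2s]
    calc K < N * 2 ^ (s + 1) := a4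
      _ = 2 * N * 2 ^ s := by rw [pow_succ]; ring
  have b3 : m * 2 ^ s ≤ K := Nat.div_mul_le_self K _
  have b4 : K < (m + 1) * 2 ^ s := by
    have := Nat.lt_mul_div_succ K h2s
    rw [mul_comm]
    simpa using this
  refine ⟨m * 2 ^ s, ?_, (m + 1) * 2 ^ s, ?_, b3, b4.le, ?_, ?_, ?_⟩
  · unfold grid
    rw [mem_image]
    exact ⟨(s, m), by rw [mem_product, mem_range, mem_Icc]; exact ⟨hsS, b1, b2.le⟩, rfl⟩
  · unfold grid
    rw [mem_image]
    exact ⟨(s, m + 1), by rw [mem_product, mem_range, mem_Icc]; exact ⟨hsS, by omega, by omega⟩, rfl⟩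
  · have h5 : (m + 1) * 2 ^ s ≤ 2 * (m * 2 ^ s) := by
      rw [← mul_assoc]
      exact Nat.mul_le_mul_right _ (by omega)
    omega
  · calc (m + 1) * 2 ^ s ≤ (2 * m) * 2 ^ s := Nat.mul_le_mul_right _ (by omega)
      _ = 2 * (m * 2 ^ s) := by ring
      _ ≤ 2 * K := by omega
  · have h6 : (m + 1) * 2 ^ s - m * 2 ^ s = 2 ^ s := by
      rw [add_mul, one_mul, Nat.add_sub_cancel_left]
    rw [h6]
    exact a3

end Pool.Agent.W80.EC
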