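import Pool.Agent.W80.EC.MainK

/-!
The formula in the form of Hardy and Littlewood.
-/

set_option autoImplicit false

namespace Pool.Agent.W80.EC

open Finset Polynomial Filter
open Pool.Agent.H442R2.EHI (evt_log_pow evt_log_ge)
open Pool.Agent.H300R2.BH
open Pool.Agent.H300R2.FB
open Pool.Agent.H300R2.EC

lemma sum_inv_sqrt (M : ℕ) : ∑ k ∈ Icc 1 M, 1 / Real.sqrt k ≤ 2 * Real.sqrt M := by
  induction M with
  | zero => simp
  | succ M ih =>
    rw [sum_Icc_succ_top (by omega)]
    have h1 : 0 < Real.sqrt ((M + 1 : ℕ) : ℝ) := Real.sqrt_pos.2 (by positivity)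
    have h2 : Real.sqrt M ≤ Real.sqrt ((M + 1 : ℕ) : ℝ) := Real.sqrt_le_sqrt (by push_cast; linarith)
    have h3 : Real.sqrt ((M + 1 : ℕ) : ℝ) ^ 2 = (M : ℝ) + 1 := by
      rw [Real.sq_sqrt (by positivity)]; push_cast; ring
    have h4 : Real.sqrt (M : ℝ) ^ 2 = (M : ℝ) := Real.sq_sqrt (by positivity)
    have h5 : 1 / Real.sqrt ((M + 1 : ℕ) : ℝ) ≤
        2 * (Real.sqrt ((M + 1 : ℕ) : ℝ) - Real.sqrt M) := by
      rw [div_le_iff₀ h1]
      have h6 : 0 ≤ Real.sqrt (M : ℝ) := Real.sqrt_nonneg _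
      nlinarith
    linarith

/-- the initial segment -/
lemma segment (a b c : ℤ) (H : ℕ) (R x y : ℝ) (ha : 1 ≤ a) (hbH : |b| ≤ H)
    (hcH : |c| ≤ H) (hR : (H : ℝ) < a * R) (hR1 : 1 ≤ R) (hy : y ^ 2 * a = x) (hy2 : 2 * R + 4 ≤ y)
    (hx : (H : ℝ) ≤ x) :
    ∃ M : ℕ, y - R - 2 ≤ M ∧ (M : ℝ) ≤ y + R + 1 ∧
      ∀ k : ℕ, (((a * (k : ℤ) ^ 2 + b * (k : ℤ) + c : ℤ) : ℝ) ≤ x ↔ k ≤ M) := by
  classical
  have har : (1 : ℝ) ≤ a := by exact_mod_cast ha
  have ha0 : (0 : ℝ) < a := by linarith
  have hbr : |(b : ℝ)| ≤ H := by exact_mod_cast hbH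
  have hcr : |(c : ℝ)| ≤ H := by exact_mod_cast hcH
  obtain ⟨hb1, hb2⟩ := abs_le.1 hbr
  obtain ⟨hc1, hc2⟩ := abs_le.1 hcr
  have hy0 : 0 < y := by linarith
  -- beyond
  have hbig : ∀ k : ℕ, y + R + 1 ≤ k → x < (a : ℝ) * (k : ℝ) ^ 2 + b * k + c := by
    intro k hk
    have hk0 : (0 : ℝ) ≤ k := Nat.cast_nonneg _
    have h1 : -(a * R) * k ≤ b * k := mul_le_mul_of_nonneg_right (by linarith) hk0
    have h2 : -(a * R) ≤ (c : ℝ) := by linarith
    have h3 : y ^ 2 < (k : ℝ) ^ 2 - R * k - R := by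
      have h4 : (y + R + 1) * (y + 1) ≤ k * (k - R) := by
        apply mul_le_mul hk (by linarith) (by linarith) hk0
      nlinarith
    have h5 : y ^ 2 * a < ((k : ℝ) ^ 2 - R * k - R) * a := mul_lt_mul_of_pos_right h3 ha0
    rw [hy] at h5
    nlinarith
  -- below
  have hsmall : ∀ k : ℕ, (k : ℝ) ≤ y - R - 1 → (a : ℝ) * (k : ℝ) ^ 2 + b * k + c ≤ x := by
    intro k hk
    have hk0 : (0 : ℝ) ≤ k := Nat.cast_nonneg _
    have h1 : b * k ≤ (a * R) * k := mul_le_mul_of_nonneg_right (by linarith) hk0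
    have h2 : (c : ℝ) ≤ a * R := by linarith
    have h3 : (k : ℝ) ^ 2 + R * k + R ≤ y ^ 2 := by
      have h4 : k * (k + R) ≤ (y - R - 1) * (y - 1) := by
        apply mul_le_mul hk (by linarith) (by linarith) (by linarith)
      nlinarith
    have h5 : ((k : ℝ) ^ 2 + R * k + R) * a ≤ y ^ 2 * a := mul_le_mul_of_nonneg_right h3 ha0.le
    rw [hy] at h5
    nlinarith
  have hcast : ∀ k : ℕ, ((a * (k : ℤ) ^ 2 + b * (k : ℤ) + c : ℤ) : ℝ) =
      (a : ℝ) * (k : ℝ) ^ 2 + b * k + c := by
    intro k; push_cast; ring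
  set P : ℕ → Prop := fun k => (a : ℝ) * (k : ℝ) ^ 2 + b * k + c ≤ x with hP
  set N0 := ⌈y + R + 1⌉₊ with hN0
  set M := Nat.findGreatest P N0 with hM
  have hP0 : P 0 := by
    simp only [hP]
    push_cast
    linarith
  have hPM : P M := Nat.findGreatest_spec (Nat.zero_le _) hP0
  have hMlow : y - R - 2 ≤ M := by
    have h1 : (0 : ℝ) ≤ y - R - 1 := by linarith
    have h2 : P ⌊y - R - 1⌋₊ := hsmall _ (Nat.floor_le h1)
    have h3 : ⌊y - R - 1⌋₊ ≤ N0 := by
      rw [hN0]
      apply Nat.floor_le_of_le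
      have := Nat.le_ceil (y + R + 1)
      linarith
    have h4 : ⌊y - R - 1⌋₊ ≤ M := Nat.le_findGreatest h3 h2
    have h5 : y - R - 1 < ⌊y - R - 1⌋₊ + 1 := Nat.lt_floor_add_one _
    have h6 : (⌊y - R - 1⌋₊ : ℝ) ≤ M := by exact_mod_cast h4
    linarith
  have hMup : (M : ℝ) ≤ y + R + 1 := by
    by_contra hcon
    rw [not_le] at hcon
    have := hbig M hcon.le
    simp only [hP] at hPM
    linarith
  refine ⟨M, hMlow, hMup, fun k => ?_⟩
  rw [hcast]
  constructor
  · intro hk
    by_contra hcon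
    rw [not_le] at hcon
    rcases le_or_gt k N0 with h | h
    · exact Nat.findGreatest_is_greatest hcon h hk
    · have h1 : y + R + 1 ≤ k := by
        have h2 := Nat.le_ceil (y + R + 1)
        have h3 : (N0 : ℝ) ≤ k := by exact_mod_cast h.le
        rw [← hN0] at h2
        linarith
      have := hbig k h1
      linarith
  · intro hk
    have hkM : (k : ℝ) ≤ M := by exact_mod_cast hk
    have hk0 : (0 : ℝ) ≤ k := Nat.cast_nonneg _
    simp only [hP] at hPM
    rcases le_or_gt ((a : ℝ) * k + b) 0 with h | h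
    · have h1 : (k : ℝ) * ((a : ℝ) * k + b) ≤ 0 := mul_nonpos_of_nonneg_of_nonpos hk0 h
      nlinarith
    · have h1 : (k : ℝ) * ((a : ℝ) * k + b) ≤ M * ((a : ℝ) * M + b) := by
        apply mul_le_mul hkM _ h.le (by linarith)
        nlinarith
      nlinarith

/-- the sum of `1 / log f` against the Hardy-Littlewood main term -/
lemma lF_asym (a b c : ℤ) (H : ℕ) (R x y : ℝ) (M : ℕ) (ha : 1 ≤ a) (hbH : |b| ≤ H)
    (hcH : |c| ≤ H) (hR : (H : ℝ) < a * R) (hR1 : 1 ≤ R) (hy : y ^ 2 * a = x)
    (hM1 : y - R - 2 ≤ M) (hM2 : (M : ℝ) ≤ y + R + 1)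
    (hle : ∀ k : ℕ, k ≤ M → ((a * (k : ℤ) ^ 2 + b * (k : ℤ) + c : ℤ) : ℝ) ≤ x)
    (hlx : 16 ≤ Real.log x) (hyR : (3 * R + 8) * Real.log x ≤ y)
    (hsq : 2 * R + 4 ≤ Real.sqrt y) (hsq2 : 4 * Real.log x ^ 2 ≤ Real.sqrt y) :
    |lF (q2 a b c) M - y / Real.log x| ≤ 60 * (y / Real.log x ^ 2) := by
  classical
  have har : (1 : ℝ) ≤ a := by exact_mod_cast ha
  have ha0 : (0 : ℝ) < a := by linarith
  have hbr : |(b : ℝ)| ≤ H := by exact_mod_cast hbH
  have hcr : |(c : ℝ)| ≤ H := by exact_mod_cast hcH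
  obtain ⟨hb1, hb2⟩ := abs_le.1 hbr
  obtain ⟨hc1, hc2⟩ := abs_le.1 hcr
  set l := Real.log x with hl
  have hl0 : 0 < l := by linarith
  have hy0 : 0 < y := by nlinarith
  have hsy : Real.sqrt y ^ 2 = y := Real.sq_sqrt hy0.le
  have hsy0 : 0 < Real.sqrt y := Real.sqrt_pos.2 hy0
  have hx0 : 0 < x := by rw [← hy]; positivity
  have hlxy : l = Real.log a + 2 * Real.log y := by
    rw [hl, ← hy, Real.log_mul (by positivity) (by positivity), Real.log_pow]
    push_cast; ring
  have hcast : ∀ k : ℕ, ((a * (k : ℤ) ^ 2 + b * (k : ℤ) + c : ℤ) : ℝ) =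
      (a : ℝ) * (k : ℝ) ^ 2 + b * k + c := by
    intro k; push_cast; ring
  -- values for large k
  have hval : ∀ k : ℕ, 2 * R + 2 ≤ (k : ℝ) → (a : ℝ) * (k : ℝ) ^ 2 / 2 ≤
      (a : ℝ) * (k : ℝ) ^ 2 + b * k + c := by
    intro k hk
    have hk0 : (0 : ℝ) ≤ k := Nat.cast_nonneg _
    have h1 : -(a * R) * k ≤ b * k := mul_le_mul_of_nonneg_right (by linarith) hk0
    have h2 : -(a * R) ≤ (c : ℝ) := by linarith
    have h3 : 0 ≤ (k : ℝ) ^ 2 / 2 - R * k - R := by nlinarith
    have h4 : 0 ≤ a * ((k : ℝ) ^ 2 / 2 - R * k - R) := mul_nonneg ha0.le h3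
    nlinarith
  have hval2 : ∀ k : ℕ, 2 * R + 2 ≤ (k : ℝ) → 2 ≤ (a : ℝ) * (k : ℝ) ^ 2 + b * k + c := by
    intro k hk
    have h1 := hval k hk
    have h2 : (4 : ℝ) ≤ k := by linarith
    have h3 : (2 : ℝ) ≤ a * (k : ℝ) ^ 2 / 2 := by nlinarith
    linarith
  have hMy : (M : ℝ) ≤ 2 * y := by nlinarith
  rw [abs_le]
  constructor
  · -- lower bound
    set R1 := ⌈2 * R + 2⌉₊ with hR1d
    have hR1u : (R1 : ℝ) < 2 * R + 2 + 1 := Nat.ceil_lt_add_one (by linarith)
    have hR1l : 2 * R + 2 ≤ (R1 : ℝ) := Nat.le_ceil _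
    have hR1M : R1 ≤ M := by
      have : (R1 : ℝ) ≤ M := by nlinarith
      exact_mod_cast this
    have h1 : ((M : ℝ) - R1) * (1 / l) ≤ lF (q2 a b c) M := by
      unfold lF
      calc ((M : ℝ) - R1) * (1 / l) ≤ ∑ k ∈ Icc R1 M, 1 / l := by
            rw [sum_const, Nat.card_Icc, nsmul_eq_mul]
            gcongr
            rw [Nat.cast_sub (by omega)]
            push_cast
            linarith
        _ ≤ ∑ k ∈ Icc R1 M, 1 / Real.log (((q2 a b c).eval (k : ℤ) : ℤ) : ℝ) := by
            apply sum_le_sum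
            intro k hk
            rw [mem_Icc] at hk
            rw [q2_eval, hcast]
            have hk1 : 2 * R + 2 ≤ (k : ℝ) := hR1l.trans (by exact_mod_cast hk.1)
            have h2 := hval2 k hk1
            have h3 := hle k hk.2
            rw [hcast] at h3
            exact one_div_le_one_div_of_le (Real.log_pos (by linarith))
              (Real.log_le_log (by linarith) h3)
        _ ≤ _ := by
            apply sum_le_sum_of_subset_of_nonneg
            · intro k hk
              rw [mem_Icc] at hk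
              rw [mem_filter, mem_Icc]
              have hk1 : 2 * R + 2 ≤ (k : ℝ) := hR1l.trans (by exact_mod_cast hk.1)
              have hk4 : 1 ≤ k := by
                have : (1 : ℝ) ≤ k := by linarith
                exact_mod_cast this
              refine ⟨⟨hk4, hk.2⟩, ?_⟩
              rw [q2_eval]
              have h2 := hval2 k hk1
              rw [← hcast] at h2
              exact_mod_cast h2
            · intro k hk _
              exact (lF_term _ k (mem_filter.mp hk).2).1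
    have h2 : y / l - lF (q2 a b c) M ≤ (3 * R + 5) / l := by
      have h3 : (y - (3 * R + 5)) * (1 / l) ≤ ((M : ℝ) - R1) * (1 / l) :=
        mul_le_mul_of_nonneg_right (by linarith) (by positivity)
      have h4 : (y - (3 * R + 5)) * (1 / l) = y / l - (3 * R + 5) / l := by ring
      linarith
    have h3 : (3 * R + 5) / l ≤ 60 * (y / l ^ 2) := by
      rw [div_le_iff₀ hl0]
      have e1 : 60 * (y / l ^ 2) * l = 60 * (y / l) := by field_simp
      rw [e1]
      have e2 : 3 * R + 8 ≤ y / l := by rw [le_div_iff₀ hl0]; exact hyR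
      nlinarith
    linarith
  · -- upper bound
    set Y := ⌊Real.sqrt y⌋₊ with hY
    have hYle : (Y : ℝ) ≤ Real.sqrt y := Nat.floor_le hsy0.le
    have hterm : ∀ k ∈ (Icc 1 M).filter (fun k : ℕ => 2 ≤ (q2 a b c).eval (k : ℤ)),
        1 / Real.log (((q2 a b c).eval (k : ℤ) : ℤ) : ℝ) ≤
          (if k ≤ Y then (2 : ℝ) else 0) + (1 / l +
            (4 / l ^ 2) * (4 * Real.sqrt y * (1 / Real.sqrt k) + 1)) := by
      intro k hk
      rw [mem_filter, mem_Icc] at hk
      obtain ⟨⟨hk1, hk2⟩, hk3⟩ := hk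
      have hkr : (1 : ℝ) ≤ k := by exact_mod_cast hk1
      have hpos : 0 ≤ 1 / l + (4 / l ^ 2) * (4 * Real.sqrt y * (1 / Real.sqrt k) + 1) := by
        positivity
      split_ifs with hkY
      · have := (lF_term _ k hk3).2
        linarith
      · rw [zero_add]
        have hkY2 : Real.sqrt y ≤ k := by
          have h1 : Real.sqrt y < Y + 1 := Nat.lt_floor_add_one _
          have h2 : (Y : ℝ) + 1 ≤ k := by exact_mod_cast not_le.1 hkY
          linarith
        have hkR : 2 * R + 2 ≤ (k : ℝ) := by linarith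
        have h1 := hval k hkR
        have h2 := hval2 k hkR
        rw [q2_eval, hcast]
        set v := (a : ℝ) * (k : ℝ) ^ 2 + b * k + c with hv
        have hkp : (0 : ℝ) < k := by linarith
        have hlv : Real.log a + 2 * Real.log k - Real.log 2 ≤ Real.log v := by
          have h3 := Real.log_le_log (by positivity) h1
          rw [Real.log_div (by positivity) (by norm_num), Real.log_mul (by positivity)
            (by positivity), Real.log_pow] at h3
          push_cast at h3
          linarith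
        have hlog2 := Real.log_two_lt_d9
        have hlogk : Real.log y / 2 ≤ Real.log k := by
          have h3 := Real.log_le_log hsy0 hkY2
          rw [Real.log_sqrt hy0.le] at h3
          linarith
        have hla : 0 ≤ Real.log a := Real.log_nonneg har
        have hlv4 : l / 4 ≤ Real.log v := by linarith
        have hlv0 : 0 < Real.log v := by linarith
        have hdiff : l - Real.log v ≤ 2 * (Real.log y - Real.log k) + 1 := by linarith
        have hlog3 : Real.log y - Real.log k ≤ 2 * (Real.sqrt y * (1 / Real.sqrt k)) := by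
          have h3 : Real.log y - Real.log k = 2 * Real.log (Real.sqrt y * (1 / Real.sqrt k)) := by
            rw [mul_one_div, Real.log_div hsy0.ne' (Real.sqrt_pos.2 hkp).ne',
              Real.log_sqrt hy0.le, Real.log_sqrt hkp.le]
            ring
          rw [h3]
          have h4 : 0 < Real.sqrt y * (1 / Real.sqrt k) := by positivity
          have h5 := Real.log_le_sub_one_of_pos h4
          linarith
        have e1 : 1 / Real.log v = 1 / l + (l - Real.log v) / (Real.log v * l) := by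
          field_simp
          ring
        rw [e1]
        gcongr
        have h6 : 0 ≤ 4 * Real.sqrt y * (1 / Real.sqrt k) + 1 := by positivity
        calc (l - Real.log v) / (Real.log v * l)
            ≤ (4 * Real.sqrt y * (1 / Real.sqrt k) + 1) / (Real.log v * l) := by
              gcongr
              linarith
          _ ≤ (4 * Real.sqrt y * (1 / Real.sqrt k) + 1) / (l / 4 * l) := by gcongr
          _ = (4 / l ^ 2) * (4 * Real.sqrt y * (1 / Real.sqrt k) + 1) := by
              field_simp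
    have h1 : lF (q2 a b c) M ≤ 2 * Y + (M * (1 / l) +
        (4 / l ^ 2) * (4 * Real.sqrt y * (2 * Real.sqrt M) + M)) := by
      unfold lF
      refine (sum_le_sum hterm).trans ?_
      calc ∑ k ∈ (Icc 1 M).filter (fun k : ℕ => 2 ≤ (q2 a b c).eval (k : ℤ)),
            ((if k ≤ Y then (2 : ℝ) else 0) + (1 / l +
            (4 / l ^ 2) * (4 * Real.sqrt y * (1 / Real.sqrt k) + 1)))
          ≤ ∑ k ∈ Icc 1 M, ((if k ≤ Y then (2 : ℝ) else 0) + (1 / l +
            (4 / l ^ 2) * (4 * Real.sqrt y * (1 / Real.sqrt k) + 1))) := by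
            apply sum_le_sum_of_subset_of_nonneg (filter_subset _ _)
            intro k _ _
            split_ifs <;> positivity
        _ = ∑ k ∈ Icc 1 M, (if k ≤ Y then (2 : ℝ) else 0) + (∑ k ∈ Icc 1 M, 1 / l +
            (4 / l ^ 2) * (4 * Real.sqrt y * (∑ k ∈ Icc 1 M, 1 / Real.sqrt k) +
              ∑ k ∈ Icc 1 M, (1 : ℝ))) := by
            rw [sum_add_distrib, sum_add_distrib, ← mul_sum, sum_add_distrib, ← mul_sum]
        _ ≤ _ := by
            gcongr
            · rw [← sum_filter, sum_const, nsmul_eq_mul, mul_comm]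
              have h2 : ((Icc 1 M).filter (fun k => k ≤ Y)).card ≤ Y := by
                calc ((Icc 1 M).filter (fun k => k ≤ Y)).card ≤ (Icc 1 Y).card := by
                      apply card_le_card
                      intro k hk
                      rw [mem_filter, mem_Icc] at hk
                      rw [mem_Icc]
                      exact ⟨hk.1.1, hk.2⟩
                  _ = Y := by simp
              have h3 : (((Icc 1 M).filter (fun k => k ≤ Y)).card : ℝ) ≤ Y := by exact_mod_cast h2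
              linarith
            · rw [sum_const, Nat.card_Icc, nsmul_eq_mul, Nat.add_sub_cancel]
            · exact sum_inv_sqrt M
            · rw [sum_const, Nat.card_Icc, nsmul_eq_mul, Nat.add_sub_cancel, mul_one]
    have hsM : Real.sqrt y * (2 * Real.sqrt M) ≤ 3 * y := by
      have h2 : Real.sqrt M ≤ Real.sqrt (2 * y) := Real.sqrt_le_sqrt hMy
      have h3 : Real.sqrt (2 * y) = Real.sqrt 2 * Real.sqrt y := Real.sqrt_mul (by norm_num) y
      have h4 : Real.sqrt 2 ≤ 3 / 2 := by
        apply Real.sqrt_le_iff.2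
        constructor <;> norm_num
      calc Real.sqrt y * (2 * Real.sqrt M) ≤ Real.sqrt y * (2 * ((3 / 2) * Real.sqrt y)) := by
            gcongr
            rw [h3] at h2
            refine h2.trans ?_
            gcongr
        _ = 3 * Real.sqrt y ^ 2 := by ring
        _ = 3 * y := by rw [hsy]
    have h5 : (4 / l ^ 2) * (4 * Real.sqrt y * (2 * Real.sqrt M) + M) ≤ 56 * (y / l ^ 2) := by
      calc (4 / l ^ 2) * (4 * Real.sqrt y * (2 * Real.sqrt M) + M)
          = (4 / l ^ 2) * (4 * (Real.sqrt y * (2 * Real.sqrt M)) + M) := by ring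
        _ ≤ (4 / l ^ 2) * (4 * (3 * y) + 2 * y) := by gcongr
        _ = 56 * (y / l ^ 2) := by ring
    have h6 : 2 * (Y : ℝ) ≤ y / l ^ 2 := by
      rw [le_div_iff₀ (by positivity)]
      have h7 : 2 * l ^ 2 ≤ Real.sqrt y := by nlinarith [sq_nonneg l]
      calc 2 * (Y : ℝ) * l ^ 2 ≤ 2 * Real.sqrt y * l ^ 2 := by gcongr
        _ = Real.sqrt y * (2 * l ^ 2) := by ring
        _ ≤ Real.sqrt y * Real.sqrt y := by gcongr
        _ = y := by rw [← sq, hsy]
    have h8 : (M : ℝ) * (1 / l) ≤ y / l + y / l ^ 2 := by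
      have h9 : R + 1 ≤ y / l := by
        rw [le_div_iff₀ hl0]
        nlinarith
      calc (M : ℝ) * (1 / l) ≤ (y + (R + 1)) * (1 / l) := by
            gcongr
            linarith
        _ ≤ (y + y / l) * (1 / l) := by gcongr
        _ = y / l + y / l ^ 2 := by
            field_simp
    have hyl : 0 ≤ y / l ^ 2 := by positivity
    linarith

end Pool.Agent.W80.EC
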