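import Pool.Agent.H364R2.EC_SwTail
import Pool.Agent.H442R2.EHI.Core2

/-!
The tail of the sum of `(D/p)/p` for the discriminants which are not exceptional, and the
convergence of the product.
-/

set_option autoImplicit false

namespace Pool.Agent.W80.EC

open Finset Filter
open Pool.Agent.H300R2.EC
open Pool.Agent.H442R2.EHI (evt_log_pow evt_log_ge)

lemma Sd_add (D : ℤ) {P Q R : ℕ} (h1 : P ≤ Q) (h2 : Q ≤ R) :
    Sd D P R = Sd D P Q + Sd D Q R := by
  unfold Sd
  rw [← sum_union]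
  · congr 1
    rw [← filter_union]
    congr 1
    ext x
    simp only [mem_Ioc, mem_union]
    omega
  · rw [disjoint_left]
    intro x hx hx2
    rw [mem_filter, mem_Ioc] at hx hx2
    omega

lemma Sd_self (D : ℤ) (P : ℕ) : Sd D P P = 0 := by unfold Sd; simp

/-- dyadic summation -/
lemma Sd_dyadic (D : ℤ) (M : ℕ) (i : ℕ) : |Sd D M (M * 2 ^ i)| ≤
    ∑ j ∈ range i, |Sd D (M * 2 ^ j) (2 * (M * 2 ^ j))| := by
  induction i with
  | zero => simp [Sd_self]
  | succ i ih =>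
    have h1 : M * 2 ^ (i + 1) = 2 * (M * 2 ^ i) := by rw [pow_succ]; ring
    have h2 : M ≤ M * 2 ^ i := Nat.le_mul_of_pos_right _ (by positivity)
    have h3 : M * 2 ^ i ≤ 2 * (M * 2 ^ i) := by omega
    rw [sum_range_succ, h1, Sd_add D h2 h3]
    exact (abs_add_le _ _).trans (add_le_add_left ih _)

lemma telescope (L : ℝ) (hL : 2 ≤ L) (i : ℕ) :
    ∑ j ∈ range i, 1 / (L + j) ^ 2 ≤ 2 / L := by
  have key : ∑ j ∈ range i, 1 / (L + j) ^ 2 ≤ 1 / (L - 1) - 1 / (L + i - 1) := by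
    induction i with
    | zero => simp
    | succ i ih =>
      rw [sum_range_succ]
      have h1 : 0 < L + i - 1 := by
        have : (0 : ℝ) ≤ i := Nat.cast_nonneg _
        linarith
      have h2 : 1 / (L + (i : ℝ)) ^ 2 ≤ 1 / (L + i - 1) - 1 / (L + ((i + 1 : ℕ) : ℝ) - 1) := by
        push_cast
        have e1 : L + ((i : ℝ) + 1) - 1 = L + i := by ring
        rw [e1, div_sub_div _ _ h1.ne' (by linarith : L + (i : ℝ) ≠ 0),
          div_le_div_iff₀ (by positivity) (by positivity)]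
        nlinarith
      linarith
  have h1 : 1 / (L - 1) ≤ 2 / L := by
    rw [div_le_div_iff₀ (by linarith) (by linarith)]
    linarith
  have h2 : 0 < L + i - 1 := by
    have : (0 : ℝ) ≤ i := Nat.cast_nonneg _
    linarith
  have h3 : 0 ≤ 1 / (L + i - 1) := by positivity
  linarith

lemma sum_pow_bound (V : ℕ) (hV : 2 ≤ V) (L : ℝ) (hL : 2 ≤ L) (i : ℕ) :
    ∑ j ∈ range i, 1 / (L + j) ^ V ≤ 2 / L ^ (V - 1) := by
  obtain ⟨v, rfl⟩ := Nat.exists_eq_add_of_le hV
  have hL0 : 0 < L := by linarith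
  calc ∑ j ∈ range i, 1 / (L + (j : ℝ)) ^ (2 + v)
      ≤ ∑ j ∈ range i, (1 / L ^ v) * (1 / (L + j) ^ 2) := by
        apply sum_le_sum
        intro j _
        have hj : (0 : ℝ) ≤ j := Nat.cast_nonneg _
        rw [pow_add, ← one_div_mul_one_div, mul_comm]
        gcongr
        linarith
    _ = (1 / L ^ v) * ∑ j ∈ range i, 1 / (L + j) ^ 2 := by rw [mul_sum]
    _ ≤ (1 / L ^ v) * (2 / L) := by
        gcongr
        exact telescope L hL i
    _ = 2 / L ^ (2 + v - 1) := by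
        rw [show 2 + v - 1 = v + 1 by omega, pow_succ]
        field_simp

/-- the tail for the discriminants which are not exceptional -/
theorem tail_nonexc (V E : ℕ) (hV : 2 ≤ V) : ∀ᶠ H : ℕ in atTop, ∀ D : ℤ,
    ¬ IsSquare D → D ∈ Dset (5 * H ^ 2) → D ∉ Exc V E H → ∀ i : ℕ,
    |Sd D ⌊Real.log H ^ E⌋₊ (⌊Real.log H ^ E⌋₊ * 2 ^ i)| ≤ 2 ^ (V + 1) / Real.log H ^ (V - 1) := by
  classical
  set θ : ℝ := 1 / (16 * ((V : ℝ) + 1)) with hθ
  have hV0 : (0 : ℝ) ≤ V := Nat.cast_nonneg _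
  have hθ0 : 0 < θ := by positivity
  set W : ℕ := 48 * (V + 1) with hW
  obtain ⟨P0, hP0⟩ := Pool.Agent.H364R2.EC.sw_tail V W
  filter_upwards [evt_log_ge 10, evt_log_pow 2 θ hθ0, evt_log_ge P0, eventually_ge_atTop 1,
    eventually_ge_atTop (20 * 2 ^ W)]
    with H hL10 hLθ hLP0 hH1 hH20 D hDsq hDset hDexc i
  set L := Real.log H with hL
  have hL0 : 0 < L := by linarith
  have hHr : (1 : ℝ) ≤ H := by exact_mod_cast hH1
  have hH0 : (0 : ℝ) < H := by linarith
  set z := ⌊L ^ E⌋₊ with hz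
  have hz1 : 1 ≤ z := by
    rw [hz, Nat.one_le_floor_iff]
    exact one_le_pow₀ (by linarith)
  have hblock : ∀ j : ℕ, |Sd D (z * 2 ^ j) (2 * (z * 2 ^ j))| ≤ 2 ^ V * (1 / (L + j) ^ V) := by
    intro j
    have hj0 : (0 : ℝ) ≤ j := Nat.cast_nonneg _
    rcases le_or_gt (j : ℝ) ((H : ℝ) ^ θ) with hj | hj
    · have h1 : ¬ 1 / (L + j) ^ V < |Sd D (z * 2 ^ j) (2 * (z * 2 ^ j))| := by
        intro hcon
        apply hDexc
        unfold Exc
        rw [mem_filter]
        exact ⟨hDset, j, hj, hcon⟩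
      rw [not_lt] at h1
      refine h1.trans ?_
      have h2 : (1 : ℝ) ≤ 2 ^ V := one_le_pow₀ (by norm_num)
      have h3 : 0 ≤ 1 / (L + j) ^ V := by positivity
      nlinarith
    · have hjL : L ^ 2 ≤ j := (hLθ.trans hj.le)
      have hj2 : j < 2 ^ j := Nat.lt_two_pow_self
      have hPj : (2 : ℝ) ^ j ≤ ((z * 2 ^ j : ℕ) : ℝ) := by
        push_cast
        have : (1 : ℝ) ≤ z := by exact_mod_cast hz1
        have h2 : (0 : ℝ) < 2 ^ j := by positivity
        nlinarith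
      have hlog : (j : ℝ) * Real.log 2 ≤ Real.log ((z * 2 ^ j : ℕ) : ℝ) := by
        rw [← Real.log_pow]
        exact Real.log_le_log (by positivity) hPj
      have hlog2 := Real.log_two_gt_d9
      have hlogj : (j : ℝ) / 2 ≤ Real.log ((z * 2 ^ j : ℕ) : ℝ) := by nlinarith
      have hlogj2 : (L + j) / 2 ≤ Real.log ((z * 2 ^ j : ℕ) : ℝ) := by nlinarith
      have h1 : P0 ≤ z * 2 ^ j := by
        have : (P0 : ℝ) ≤ ((z * 2 ^ j : ℕ) : ℝ) := by
          refine le_trans ?_ hPj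
          have h3 : (j : ℝ) < 2 ^ j := by exact_mod_cast hj2
          nlinarith
        exact_mod_cast this
      have hD5 : |(D : ℝ)| ≤ 5 * (H : ℝ) ^ 2 := by
        unfold Dset at hDset
        rw [mem_filter, mem_Icc] at hDset
        have h3 : |D| ≤ ((5 * H ^ 2 : ℕ) : ℤ) := abs_le.2 ⟨hDset.1.1, hDset.1.2⟩
        have h4 : |(D : ℝ)| ≤ ((5 * H ^ 2 : ℕ) : ℝ) := by exact_mod_cast h3
        push_cast at h4
        exact h4
      have h2 := hP0 (z * 2 ^ j) h1 (2 * (z * 2 ^ j)) (by omega) le_rfl D hDsq (by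
        calc 4 * |(D : ℝ)| ≤ 20 * (H : ℝ) ^ 2 := by linarith
          _ ≤ ((H : ℝ) ^ θ / 2) ^ W := by
            rw [div_pow, le_div_iff₀ (by positivity), ← Real.rpow_natCast ((H : ℝ) ^ θ) W,
              ← Real.rpow_mul hH0.le]
            have e1 : θ * (W : ℝ) = 3 := by
              rw [hθ, hW]
              push_cast
              field_simp
              ring
            rw [e1]
            have e2 : (20 : ℝ) * 2 ^ W ≤ H := by exact_mod_cast hH20
            have e3 : (H : ℝ) ^ (3 : ℝ) = H * (H : ℝ) ^ 2 := by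
              rw [show (3 : ℝ) = ((3 : ℕ) : ℝ) by norm_num, Real.rpow_natCast]; ring
            rw [e3]
            have e4 : 0 < (H : ℝ) ^ 2 := by positivity
            nlinarith
          _ ≤ Real.log ((z * 2 ^ j : ℕ) : ℝ) ^ W := by
            apply pow_le_pow_left₀ (by positivity)
            linarith)
      refine h2.trans ?_
      have h3 : 0 < (L + j) / 2 := by positivity
      calc 1 / Real.log ((z * 2 ^ j : ℕ) : ℝ) ^ V ≤ 1 / ((L + j) / 2) ^ V := by gcongr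
        _ = 2 ^ V * (1 / (L + j) ^ V) := by
            rw [div_pow]
            field_simp
  calc |Sd D z (z * 2 ^ i)| ≤ ∑ j ∈ range i, |Sd D (z * 2 ^ j) (2 * (z * 2 ^ j))| :=
        Sd_dyadic D z i
    _ ≤ ∑ j ∈ range i, 2 ^ V * (1 / (L + j) ^ V) := sum_le_sum fun j _ => hblock j
    _ = 2 ^ V * ∑ j ∈ range i, 1 / (L + j) ^ V := by rw [mul_sum]
    _ ≤ 2 ^ V * (2 / L ^ (V - 1)) := by
        gcongr
        exact sum_pow_bound V hV L (by linarith) i
    _ = _ := by rw [pow_succ]; ring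

/-- the tails tend to zero -/
theorem Sd_tendsto (D : ℤ) (hD : ¬ IsSquare D) (ε : ℝ) (hε : 0 < ε) : ∃ M0 : ℕ, ∀ M : ℕ, M0 ≤ M →
    ∀ N : ℕ, M ≤ N → |Sd D M N| ≤ ε := by
  obtain ⟨P0, hP0⟩ := Pool.Agent.H364R2.EC.sw_tail 2 1
  have hev : ∀ᶠ M : ℕ in atTop, P0 ≤ M ∧ 4 * |(D : ℝ)| ≤ Real.log M ∧ 4 ≤ Real.log M ∧
      20 / ε ≤ Real.log M := by
    filter_upwards [eventually_ge_atTop P0, evt_log_ge (4 * |(D : ℝ)|), evt_log_ge 4,
      evt_log_ge (20 / ε)] with M h1 h2 h3 h4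
    exact ⟨h1, h2, h3, h4⟩
  obtain ⟨M0, hM0⟩ := eventually_atTop.mp hev
  refine ⟨M0, fun M hM N hMN => ?_⟩
  obtain ⟨h1, h2, h3, h4⟩ := hM0 M hM
  set L := Real.log M with hL
  have hM1 : 1 ≤ M := by
    rcases Nat.eq_zero_or_pos M with h | h
    · rw [hL, h] at h3; simp at h3; linarith
    · exact h
  have hMr : (1 : ℝ) ≤ M := by exact_mod_cast hM1
  have hpiece : ∀ j : ℕ, ∀ Q : ℕ, M * 2 ^ j ≤ Q → Q ≤ 2 * (M * 2 ^ j) →
      |Sd D (M * 2 ^ j) Q| ≤ 4 * (1 / (L + j) ^ 2) := by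
    intro j Q hQ1 hQ2
    have hlog2 := Real.log_two_gt_d9
    have hj0 : (0 : ℝ) ≤ j := Nat.cast_nonneg _
    have hlog : Real.log ((M * 2 ^ j : ℕ) : ℝ) = L + j * Real.log 2 := by
      push_cast
      rw [Real.log_mul (by positivity) (by positivity), Real.log_pow]
    have hle : (L + j) / 2 ≤ Real.log ((M * 2 ^ j : ℕ) : ℝ) := by rw [hlog]; nlinarith
    have h5 := hP0 (M * 2 ^ j) (h1.trans (Nat.le_mul_of_pos_right _ (by positivity))) Q hQ1 hQ2 D hD
      (by rw [pow_one, hlog]; nlinarith)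
    refine h5.trans ?_
    have h6 : 0 < (L + j) / 2 := by positivity
    calc 1 / Real.log ((M * 2 ^ j : ℕ) : ℝ) ^ 2 ≤ 1 / ((L + j) / 2) ^ 2 := by gcongr
      _ = 4 * (1 / (L + j) ^ 2) := by
          rw [div_pow]
          field_simp
          norm_num
  -- find the dyadic position of `N`
  set i := Nat.log 2 (N / M) with hi
  have hNM : 1 ≤ N / M := (Nat.one_le_div_iff (by omega)).2 hMN
  have h5 : 2 ^ i ≤ N / M := Nat.pow_log_le_self 2 (by omega)
  have h6 : N / M < 2 ^ (i + 1) := Nat.lt_pow_succ_log_self (by norm_num) _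
  have h7 : M * 2 ^ i ≤ N := by
    calc M * 2 ^ i ≤ M * (N / M) := Nat.mul_le_mul_left _ h5
      _ ≤ N := Nat.mul_div_le N M
  have h8 : N ≤ 2 * (M * 2 ^ i) := by
    have : N < M * 2 ^ (i + 1) := by
      have h9 : N / M + 1 ≤ 2 ^ (i + 1) := h6
      calc N < M * (N / M + 1) := by
            have := Nat.lt_mul_div_succ N (show 0 < M by omega)
            simpa using this
        _ ≤ M * 2 ^ (i + 1) := Nat.mul_le_mul_left _ h9
    rw [pow_succ] at this
    linarith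
  have h9 : M ≤ M * 2 ^ i := Nat.le_mul_of_pos_right _ (by positivity)
  rw [Sd_add D h9 h7]
  calc |Sd D M (M * 2 ^ i) + Sd D (M * 2 ^ i) N|
      ≤ |Sd D M (M * 2 ^ i)| + |Sd D (M * 2 ^ i) N| := abs_add_le _ _
    _ ≤ (∑ j ∈ range i, |Sd D (M * 2 ^ j) (2 * (M * 2 ^ j))|) + 4 * (1 / (L + i) ^ 2) :=
        add_le_add (Sd_dyadic D M i) (hpiece i N h7 h8)
    _ ≤ (∑ j ∈ range i, 4 * (1 / (L + j) ^ 2)) + 4 * (1 / (L + i) ^ 2) := by
        gcongr with j _
        exact hpiece j _ (by omega) le_rfl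
    _ = 4 * ∑ j ∈ range (i + 1), 1 / (L + j) ^ 2 := by
        rw [sum_range_succ, mul_add, mul_sum]
    _ ≤ 4 * (2 / L) := by
        gcongr
        exact telescope L (by linarith) _
    _ ≤ ε := by
        rw [div_le_iff₀ hε] at h4
        rw [← mul_div_assoc, div_le_iff₀ (by linarith)]
        linarith

end Pool.Agent.W80.EC
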